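import Pool.Agent.Hhelper32.Weiss.Mat

set_option autoImplicit false
set_option linter.unusedSectionVars false

/-!
# Counting patterns above a partial pattern
-/

namespace Pool.Agent.Hhelper32.Weiss

open Finset Classical

variable {S A α : Type} [Fintype A] [DecidableEq A] [DecidableEq S]

/-- number of elements of `B` whose image agrees with `u` on `U` -/
noncomputable def num (B : Finset α) (ι : α → S → A) (U : Finset S) (u : S → A) : ℕ :=
  (B.filter (fun p => ∀ v ∈ U, ι p v = u v)).card

/-- glue a pattern `q` on `w` into `u` -/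
noncomputable def glue (w : Finset S) (u : S → A) (q : w → A) : S → A :=
  fun v => if h : v ∈ w then q ⟨v, h⟩ else u v

theorem glue_mem {w : Finset S} {u : S → A} {q : w → A} {v : S} (h : v ∈ w) :
    glue w u q v = q ⟨v, h⟩ := by simp [glue, h]

theorem glue_not_mem {w : Finset S} {u : S → A} {q : w → A} {v : S} (h : v ∉ w) :
    glue w u q v = u v := by simp [glue, h]

theorem num_congr {B : Finset α} {ι : α → S → A} {U : Finset S} {u u' : S → A}
    (h : ∀ v ∈ U, u v = u' v) : num B ι U u = num B ι U u' := by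
  unfold num
  congr 1
  apply Finset.filter_congr
  intro p _
  constructor
  · intro g v hv; rw [g v hv, h v hv]
  · intro g v hv; rw [g v hv, h v hv]

/-- additivity -/
theorem num_eq_sum (B : Finset α) (ι : α → S → A) (U w : Finset S) (hUw : Disjoint U w)
    (u : S → A) : num B ι U u = ∑ q : w → A, num B ι (U ∪ w) (glue w u q) := by
  unfold num
  rw [Finset.card_eq_sum_card_fiberwise (f := fun p => fun v : w => ι p v) (t := Finset.univ)
    (fun _ _ => Finset.mem_univ _)]
  apply Finset.sum_congr rfl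
  intro q _
  rw [Finset.filter_filter]
  congr 1
  apply Finset.filter_congr
  intro p _
  constructor
  · rintro ⟨h1, h2⟩ v hv
    rcases Finset.mem_union.mp hv with h | h
    · rw [glue_not_mem (Finset.disjoint_left.mp hUw h)]; exact h1 v h
    · rw [glue_mem h]; exact congrFun h2 ⟨v, h⟩
  · intro h
    refine ⟨fun v hv => ?_, funext fun v => ?_⟩
    · rw [h v (Finset.mem_union_left _ hv), glue_not_mem (Finset.disjoint_left.mp hUw hv)]
    · rw [h v (Finset.mem_union_right _ v.2), glue_mem v.2]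

variable {D : Type} [Fintype D] [DecidableEq D]

/-- the one window step -/
theorem gain {β : Type} (BX : Finset α) (ιX : α → S → A) (BY : Finset β) (ιY : β → S → A)
    (w : Finset S) (g : D → D → S → A)
    (hinj : ∀ x y x' y', (∀ v ∈ w, g x y v = g x' y' v) → x = x' ∧ y = y')
    (U : Finset S) (hU : Disjoint U w) (u : S → A)
    (hcomp : ∀ x y, x ≠ y → ∀ q : w → A,
      num BY ιY (U ∪ w) (glue w u q) ≤ num BY ιY (U ∪ w) (glue w u (fun v => g x y v)))
    (hdiag : ∀ x, num BX ιX (U ∪ w) (glue w u (fun v => g x x v)) = 0)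
    (hdet :
      (Matrix.of fun x y => (num BX ιX (U ∪ w) (glue w u (fun v => g x y v)) : ℝ)).det = 0)
    (hD : 2 ≤ Fintype.card D)
    {ε : ℝ} (hε : 0 < ε) (hgap : ∀ M : D → D → ℝ, (∀ x, M x x = 0) →
      (∀ x y, x ≠ y → 1 ≤ M x y) → (Matrix.of M).det = 0 →
      (Fintype.card D : ℝ) * (Fintype.card D - 1) + ε ≤ ∑ x, ∑ y, M x y)
    {T : ℝ} (hT : 0 < T)
    (hstep : ∀ u, T * (num BY ιY (U ∪ w) u : ℝ) ≤ num BX ιX (U ∪ w) u) :
    T * (1 + ε / (Fintype.card (w → A) : ℝ)) * (num BY ιY U u : ℝ) ≤ num BX ιX U u := by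
  -- the gadget patterns
  let G : D × D → (w → A) := fun p => fun v => g p.1 p.2 v
  have hG : Function.Injective G := by
    rintro ⟨x, y⟩ ⟨x', y'⟩ h
    have := hinj x y x' y' (fun v hv => congrFun h ⟨v, hv⟩)
    rw [Prod.mk.injEq]; exact this
  let off : Finset (D × D) := Finset.univ.filter (fun p => p.1 ≠ p.2)
  let s : Finset (w → A) := off.image G
  have hoff : off.card = Fintype.card D * (Fintype.card D - 1) := by
    have h1 : off = (Finset.univ : Finset D).offDiag := by
      ext ⟨x, y⟩; simp [off]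
    rw [h1, Finset.offDiag_card, Finset.card_univ, Nat.mul_sub, mul_one]
  -- a representative
  obtain ⟨x0, y0, hxy0⟩ := Fintype.exists_pair_of_one_lt_card (α := D) (by omega)
  set C : ℕ := num BY ιY (U ∪ w) (glue w u (fun v => g x0 y0 v)) with hC
  have hCeq : ∀ x y, x ≠ y → num BY ιY (U ∪ w) (glue w u (fun v => g x y v)) = C := by
    intro x y hxy
    exact le_antisymm (hcomp x0 y0 hxy0 _) (hcomp x y hxy _)
  have hCle : ∀ q : w → A, num BY ιY (U ∪ w) (glue w u q) ≤ C := hcomp x0 y0 hxy0
  have hsY := num_eq_sum BY ιY U w hU u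
  have hsX := num_eq_sum BX ιX U w hU u
  have hcard : (0:ℝ) < (Fintype.card (w → A) : ℝ) := by
    have : 0 < Fintype.card (w → A) := Fintype.card_pos_iff.mpr ⟨fun v => g x0 y0 v⟩
    exact_mod_cast this
  have hYle : (num BY ιY U u : ℝ) ≤ Fintype.card (w → A) * C := by
    rw [hsY]
    push_cast
    calc (∑ q : w → A, (num BY ιY (U ∪ w) (glue w u q) : ℝ)) ≤ ∑ q : w → A, (C : ℝ) :=
          Finset.sum_le_sum fun q _ => by exact_mod_cast hCle q
      _ = Fintype.card (w → A) * C := by simp
  rcases Nat.eq_zero_or_pos C with h0 | hCpos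
  · have : (num BY ιY U u : ℝ) ≤ 0 := by rw [h0] at hYle; simpa using hYle
    have h2 : (num BY ιY U u : ℝ) = 0 := le_antisymm this (Nat.cast_nonneg _)
    rw [h2, mul_zero]; exact Nat.cast_nonneg _
  · have hCr : (0:ℝ) < C := by exact_mod_cast hCpos
    -- the gadget part
    have hMsum : T * C * ((Fintype.card D : ℝ) * (Fintype.card D - 1) + ε) ≤
        ∑ x, ∑ y, (num BX ιX (U ∪ w) (glue w u (fun v => g x y v)) : ℝ) := by
      refine gap_scaled hgap (mul_pos hT hCr) _ ?_ ?_ hdet
      · intro x; rw [hdiag x]; simp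
      · intro x y hxy
        have := hstep (glue w u (fun v => g x y v))
        rwa [hCeq x y hxy] at this
    have hXs : (∑ q ∈ s, (num BX ιX (U ∪ w) (glue w u q) : ℝ)) =
        ∑ x, ∑ y, (num BX ιX (U ∪ w) (glue w u (fun v => g x y v)) : ℝ) := by
      rw [Finset.sum_image (fun p _ p' _ h => hG h)]
      rw [← Finset.sum_product']
      rw [Finset.univ_product_univ]
      apply Finset.sum_filter_of_ne
      rintro ⟨x, y⟩ _ hne heq
      apply hne
      simp only at heq
      subst heq
      rw [hdiag x]; simp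
    have hYs : (∑ q ∈ s, (num BY ιY (U ∪ w) (glue w u q) : ℝ)) =
        (Fintype.card D : ℝ) * (Fintype.card D - 1) * C := by
      rw [Finset.sum_image (fun p _ p' _ h => hG h)]
      have : ∀ p ∈ off, (num BY ιY (U ∪ w) (glue w u (G p)) : ℝ) = C := by
        rintro ⟨x, y⟩ hp
        have hxy : x ≠ y := by simpa [off] using hp
        exact_mod_cast hCeq x y hxy
      rw [Finset.sum_congr rfl this, Finset.sum_const, hoff, nsmul_eq_mul]
      push_cast
      rw [Nat.cast_sub (by omega)]
      push_cast; ring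
    -- the rest
    have hrest : T * (∑ q ∈ sᶜ, (num BY ιY (U ∪ w) (glue w u q) : ℝ)) ≤
        ∑ q ∈ sᶜ, (num BX ιX (U ∪ w) (glue w u q) : ℝ) := by
      rw [Finset.mul_sum]
      exact Finset.sum_le_sum fun q _ => hstep _
    have hXtot : (num BX ιX U u : ℝ) = (∑ q ∈ s, (num BX ιX (U ∪ w) (glue w u q) : ℝ)) +
        ∑ q ∈ sᶜ, (num BX ιX (U ∪ w) (glue w u q) : ℝ) := by
      rw [hsX, Finset.sum_add_sum_compl]; push_cast; rfl
    have hYtot : (num BY ιY U u : ℝ) = (∑ q ∈ s, (num BY ιY (U ∪ w) (glue w u q) : ℝ)) +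
        ∑ q ∈ sᶜ, (num BY ιY (U ∪ w) (glue w u q) : ℝ) := by
      rw [hsY, Finset.sum_add_sum_compl]; push_cast; rfl
    have h1 : ε / (Fintype.card (w → A) : ℝ) * (num BY ιY U u : ℝ) ≤ ε * C := by
      rw [div_mul_eq_mul_div, div_le_iff₀ hcard]
      calc ε * (num BY ιY U u : ℝ) ≤ ε * (Fintype.card (w → A) * C) :=
            mul_le_mul_of_nonneg_left hYle hε.le
        _ = ε * C * Fintype.card (w → A) := by ring
    calc T * (1 + ε / (Fintype.card (w → A) : ℝ)) * (num BY ιY U u : ℝ)
        = T * (num BY ιY U u : ℝ) + T * (ε / (Fintype.card (w → A) : ℝ) *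
            (num BY ιY U u : ℝ)) := by ring
      _ ≤ T * (num BY ιY U u : ℝ) + T * (ε * C) := by
          have := mul_le_mul_of_nonneg_left h1 hT.le
          linarith
      _ = T * (∑ q ∈ sᶜ, (num BY ιY (U ∪ w) (glue w u q) : ℝ)) +
            T * C * ((Fintype.card D : ℝ) * (Fintype.card D - 1) + ε) := by
          rw [hYtot, hYs]; ring
      _ ≤ (∑ q ∈ sᶜ, (num BX ιX (U ∪ w) (glue w u q) : ℝ)) +
            ∑ x, ∑ y, (num BX ιX (U ∪ w) (glue w u (fun v => g x y v)) : ℝ) :=
          add_le_add hrest hMsum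
      _ = num BX ιX U u := by rw [hXtot, hXs]; ring

/-- iterating over disjoint windows -/
theorem iterate {β I : Type} [DecidableEq I] (BX : Finset α) (ιX : α → S → A) (BY : Finset β)
    (ιY : β → S → A) (Q : Finset S) (w : I → Finset S) {κ : ℝ} (hκ : 0 < κ)
    (hdisj : ∀ i j, i ≠ j → Disjoint (w i) (w j)) (hQ : ∀ i, w i ⊆ Q)
    (hgain : ∀ i, ∀ T : ℝ, 0 < T → ∀ U : Finset S, U ⊆ Q → Disjoint U (w i) →
      (∀ u, T * (num BY ιY (U ∪ w i) u : ℝ) ≤ num BX ιX (U ∪ w i) u) →
      ∀ u, T * κ * (num BY ιY U u : ℝ) ≤ num BX ιX U u) :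
    ∀ (s t : Finset I), Disjoint s t →
      (∀ u, (num BY ιY ((s ∪ t).biUnion w) u : ℝ) ≤ num BX ιX ((s ∪ t).biUnion w) u) →
      ∀ u, κ ^ s.card * (num BY ιY (t.biUnion w) u : ℝ) ≤ num BX ιX (t.biUnion w) u := by
  intro s
  induction s using Finset.induction_on with
  | empty =>
    intro t _ h u
    simpa using h u
  | insert i s hi ih =>
    intro t hst h u
    have h1 : Disjoint s (insert i t) := by
      rw [Finset.disjoint_insert_right]
      refine ⟨hi, ?_⟩
      exact (Finset.disjoint_insert_left.mp hst).2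
    have hit : i ∉ t := (Finset.disjoint_insert_left.mp hst).1
    have h2 : insert i s ∪ t = s ∪ insert i t := by
      ext x; simp only [Finset.mem_union, Finset.mem_insert]; tauto
    rw [h2] at h
    have h3 := ih (insert i t) h1 h
    have h4 : (insert i t).biUnion w = t.biUnion w ∪ w i := by
      rw [Finset.biUnion_insert, Finset.union_comm]
    rw [h4] at h3
    have h5 := hgain i (κ ^ s.card) (pow_pos hκ _) (t.biUnion w)
      (Finset.biUnion_subset.mpr fun j _ => hQ j)
      ((Finset.disjoint_biUnion_left _ _ _).mpr fun j hj => hdisj j i (by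
        rintro rfl; exact hit hj)) h3 u
    rw [Finset.card_insert_of_notMem hi, pow_succ]
    exact h5

end Pool.Agent.Hhelper32.Weiss
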