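import Mathlib

set_option autoImplicit false

/-!
# Pattern counts and entropy
-/

namespace Pool.Agent.Hhelper32.Weiss

open Finset Classical

/-- shift invariance -/
def ShiftInv {m : ℕ} (S : Set ((Fin 2 → ℤ) → Fin m)) : Prop :=
  ∀ z ∈ S, ∀ t : Fin 2 → ℤ, (fun v => z (v + t)) ∈ S

/-- patterns on `Q` -/
noncomputable def patt {m : ℕ} (S : Set ((Fin 2 → ℤ) → Fin m)) (Q : Finset (Fin 2 → ℤ)) :
    Finset (Q → Fin m) :=
  Finset.univ.filter (fun q => ∃ y ∈ S, ∀ v : Q, q v = y v)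

theorem mem_patt {m : ℕ} {S : Set ((Fin 2 → ℤ) → Fin m)} {Q : Finset (Fin 2 → ℤ)}
    {q : Q → Fin m} : q ∈ patt S Q ↔ ∃ y ∈ S, ∀ v : Q, q v = y v := by simp [patt]

theorem patt_card_le {m : ℕ} {S : Set ((Fin 2 → ℤ) → Fin m)} (hS : ShiftInv S)
    {Q1 Q2 : Finset (Fin 2 → ℤ)} (t : Fin 2 → ℤ) (h : ∀ v ∈ Q1, v + t ∈ Q2) :
    (patt S Q1).card ≤ (patt S Q2).card := by
  apply Finset.card_le_card_of_surjOn (fun p => fun v : Q1 => p ⟨(v : Fin 2 → ℤ) + t, h v v.2⟩)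
  intro p hp
  obtain ⟨z, hz, hpz⟩ := mem_patt.mp hp
  refine ⟨fun v : Q2 => z ((v : Fin 2 → ℤ) + (-t)), ?_, ?_⟩
  · exact mem_patt.mpr ⟨_, hS z hz (-t), fun v => rfl⟩
  · funext v
    beta_reduce
    rw [hpz v]
    congr 1
    simp

/-- side `s` box -/
noncomputable def sq (s : ℕ) : Finset (Fin 2 → ℤ) := Finset.Icc ![0, 0] ![(s : ℤ) - 1, (s : ℤ) - 1]

theorem mem_sq {s : ℕ} {v : Fin 2 → ℤ} :
    v ∈ sq s ↔ (0 ≤ v 0 ∧ 0 ≤ v 1) ∧ (v 0 < s ∧ v 1 < s) := by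
  simp [sq, Finset.mem_Icc, Pi.le_def, Fin.forall_fin_two]

noncomputable def N {m : ℕ} (S : Set ((Fin 2 → ℤ) → Fin m)) (s : ℕ) : ℕ := (patt S (sq s)).card

theorem N_pos {m : ℕ} {S : Set ((Fin 2 → ℤ) → Fin m)} (hS : S.Nonempty) (s : ℕ) : 0 < N S s := by
  obtain ⟨z, hz⟩ := hS
  exact Finset.card_pos.mpr ⟨fun v => z v, mem_patt.mpr ⟨z, hz, fun v => rfl⟩⟩

/-- submultiplicativity -/
theorem N_mul_le {m : ℕ} {S : Set ((Fin 2 → ℤ) → Fin m)} (hS : ShiftInv S) (s k : ℕ) :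
    N S (s * k) ≤ N S s ^ (k ^ 2) := by
  have hcard : (Fintype.piFinset (fun _ : Fin k × Fin k => patt S (sq s))).card =
      N S s ^ (k ^ 2) := by
    rw [Fintype.card_piFinset]
    simp [N, pow_two]
  rw [← hcard]
  unfold N
  have hmem : ∀ (i : Fin k × Fin k) (v : Fin 2 → ℤ), v ∈ sq s →
      v + ![(s : ℤ) * (i.1 : ℕ), (s : ℤ) * (i.2 : ℕ)] ∈ sq (s * k) := by
    intro i v hv
    rw [mem_sq] at hv ⊢
    simp only [Pi.add_apply, Matrix.cons_val_zero, Matrix.cons_val_one]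
    have h1 : ((i.1 : ℕ) : ℤ) + 1 ≤ k := by have := i.1.2; omega
    have h2 : ((i.2 : ℕ) : ℤ) + 1 ≤ k := by have := i.2.2; omega
    have h3 := mul_le_mul_of_nonneg_left h1 (show (0:ℤ) ≤ s by positivity)
    have h4 := mul_le_mul_of_nonneg_left h2 (show (0:ℤ) ≤ s by positivity)
    have h5 : (0:ℤ) ≤ (s : ℤ) * (i.1 : ℕ) := by positivity
    have h6 : (0:ℤ) ≤ (s : ℤ) * (i.2 : ℕ) := by positivity
    push_cast
    refine ⟨⟨by omega, by omega⟩, by linarith, by linarith⟩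
  apply Finset.card_le_card_of_injOn (fun p => fun i : Fin k × Fin k => fun v : sq s =>
    p ⟨(v : Fin 2 → ℤ) + ![(s : ℤ) * (i.1 : ℕ), (s : ℤ) * (i.2 : ℕ)], hmem i v v.2⟩)
  · intro p hp
    obtain ⟨z, hz, hpz⟩ := mem_patt.mp hp
    rw [Finset.mem_coe, Fintype.mem_piFinset]
    intro i
    exact mem_patt.mpr ⟨_, hS z hz ![(s : ℤ) * (i.1 : ℕ), (s : ℤ) * (i.2 : ℕ)],
      fun v => hpz _⟩
  · intro p _ p' _ heq
    funext v
    have hv := mem_sq.mp v.2
    push_cast at hv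
    have hspos : (0:ℤ) < s := by
      rcases Nat.eq_zero_or_pos s with h | h
      · exfalso
        subst h
        simp at hv
        omega
      · exact_mod_cast h
    have key : ∀ c : ℤ, 0 ≤ c → c < (s : ℤ) * k → ∃ a : Fin k,
        (s : ℤ) * ((a : ℕ) : ℤ) ≤ c ∧ c < (s : ℤ) * ((a : ℕ) : ℤ) + s := by
      intro c h1 h2
      have h3 : 0 ≤ c / s := Int.ediv_nonneg h1 hspos.le
      have h4 : c / s < k := by
        apply Int.ediv_lt_of_lt_mul hspos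
        linarith
      refine ⟨⟨(c / s).toNat, by omega⟩, ?_⟩
      simp only
      rw [Int.toNat_of_nonneg h3]
      have h5 := Int.mul_ediv_add_emod c s
      have h6 := Int.emod_nonneg c hspos.ne'
      have h7 := Int.emod_lt_of_pos c hspos
      constructor
      · linarith
      · linarith
    obtain ⟨a, ha1, ha2⟩ := key (v.1 0) hv.1.1 hv.2.1
    obtain ⟨b, hb1, hb2⟩ := key (v.1 1) hv.1.2 hv.2.2
    have hw : (v : Fin 2 → ℤ) - ![(s : ℤ) * ((a : ℕ) : ℤ), (s : ℤ) * ((b : ℕ) : ℤ)] ∈ sq s := by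
      rw [mem_sq]
      simp only [Pi.sub_apply, Matrix.cons_val_zero, Matrix.cons_val_one]
      omega
    have h := congrFun (congrFun heq (a, b)) ⟨_, hw⟩
    simp only [sub_add_cancel] at h
    exact h

/-- the count of the frozen statement -/
theorem ncard_eq_N {m : ℕ} (S : Set ((Fin 2 → ℤ) → Fin m)) (n : ℕ) :
    ({p : (Fin 2 → Fin (n+1)) → Fin m |
      ∃ y ∈ S, ∀ i, p i = y (fun j => ((i j : ℕ) : ℤ))}.ncard : ℕ) = N S (n + 1) := by
  have hmem : ∀ i : Fin 2 → Fin (n+1), (fun j => ((i j : ℕ) : ℤ)) ∈ sq (n + 1) := by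
    intro i
    rw [mem_sq]
    have h0 := (i 0).2
    have h1 := (i 1).2
    push_cast
    refine ⟨⟨by positivity, by positivity⟩, by omega, by omega⟩
  unfold N
  rw [← Set.ncard_coe_finset]
  symm
  apply Set.ncard_congr (fun p _ => fun i : Fin 2 → Fin (n+1) => p ⟨_, hmem i⟩)
  · intro p hp
    obtain ⟨z, hz, hpz⟩ := mem_patt.mp (Finset.mem_coe.mp hp)
    exact ⟨z, hz, fun i => hpz _⟩
  · intro p p' _ _ heq
    funext v
    have hv := mem_sq.mp v.2
    push_cast at hv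
    have h := congrFun heq (fun j => ⟨(v.1 j).toNat, by
      fin_cases j <;> simp <;> omega⟩)
    have e : (fun j : Fin 2 => (((v.1 j).toNat : ℕ) : ℤ)) = v.1 := by
      funext j
      have : 0 ≤ v.1 j := by
        fin_cases j
        · exact hv.1.1
        · exact hv.1.2
      exact Int.toNat_of_nonneg this
    simp only [e] at h
    exact h
  · rintro p ⟨z, hz, hpz⟩
    refine ⟨fun v => z v, Finset.mem_coe.mpr (mem_patt.mpr ⟨z, hz, fun v => rfl⟩), ?_⟩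
    funext i
    exact (hpz i).symm

/-- elementary limit -/
theorem limit_ineq {α β s : ℝ} (hβ : 0 ≤ β) (hs : 0 ≤ s)
    (h : ∀ t : ℕ, 1 ≤ t → (s * t - 1) ^ 2 * β ≤ α * (t : ℝ) ^ 2) : s ^ 2 * β ≤ α := by
  by_contra hlt
  push Not at hlt
  obtain ⟨t, ht⟩ := exists_nat_gt (2 * s * β / (s ^ 2 * β - α))
  have hd : 0 < s ^ 2 * β - α := by linarith
  have ht0 : (0:ℝ) < t := by
    have : 0 ≤ 2 * s * β / (s ^ 2 * β - α) := by positivity
    linarith
  have ht1 : 1 ≤ t := by exact_mod_cast ht0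
  have h1 := h t ht1
  rw [div_lt_iff₀ hd] at ht
  have h2 : (s * t - 1) ^ 2 * β ≥ (s ^ 2 * t ^ 2 - 2 * s * t) * β := by
    apply mul_le_mul_of_nonneg_right _ hβ
    nlinarith
  have h3 : 2 * s * β * t < t * (s ^ 2 * β - α) * t := mul_lt_mul_of_pos_right ht ht0
  nlinarith

theorem log_step {c A B : ℝ} {e f : ℕ} (hc : 0 < c) (hA : 0 < A)
    (h : (1 + c) ^ e * A ≤ B ^ f) :
    (e : ℝ) * Real.log (1 + c) + Real.log A ≤ (f : ℝ) * Real.log B := by
  have hpos : 0 < (1 + c) ^ e := by positivity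
  have h4 := Real.log_le_log (mul_pos hpos hA) h
  rwa [Real.log_mul hpos.ne' hA.ne', Real.log_pow, Real.log_pow] at h4

/-- from the counting inequality to a strict entropy inequality -/
theorem entropy_gap {m k : ℕ} {X : Set ((Fin 2 → ℤ) → Fin m)} {Y : Set ((Fin 2 → ℤ) → Fin k)}
    (hX : ShiftInv X) (hYne : Y.Nonempty) {L : ℕ} (hL : 1 ≤ L) {c : ℝ}
    (hc : 0 < c)
    (h : ∀ q : ℕ, (1 + c) ^ (q ^ 2) * (N Y (L * q) : ℝ) ≤ (N X (L * (q + 1)) : ℝ)) :
    (⨅ n : ℕ, Real.log ((N Y (n + 1) : ℕ) : ℝ) / ((n : ℝ) + 1) ^ 2) <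
    (⨅ n : ℕ, Real.log ((N X (n + 1) : ℕ) : ℝ) / ((n : ℝ) + 1) ^ 2) := by
  set hY := ⨅ n : ℕ, Real.log ((N Y (n + 1) : ℕ) : ℝ) / ((n : ℝ) + 1) ^ 2 with hYdef
  have hlam : 0 < Real.log (1 + c) := Real.log_pos (by linarith)
  have hLr : (0:ℝ) < L := by exact_mod_cast hL
  have hY0 : 0 ≤ hY := by
    apply Real.iInf_nonneg
    intro n
    exact div_nonneg (Real.log_natCast_nonneg _) (by positivity)
  have hYle : ∀ s : ℕ, hY * (s : ℝ) ^ 2 ≤ Real.log (N Y s) := by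
    intro s
    rcases Nat.eq_zero_or_pos s with h0 | h0
    · subst h0
      simp only [Nat.cast_zero, ne_eq, OfNat.ofNat_ne_zero, not_false_eq_true, zero_pow, mul_zero]
      exact Real.log_natCast_nonneg _
    · obtain ⟨n, rfl⟩ : ∃ n, s = n + 1 := ⟨s - 1, by omega⟩
      have hb : BddBelow (Set.range fun n : ℕ =>
          Real.log ((N Y (n + 1) : ℕ) : ℝ) / ((n : ℝ) + 1) ^ 2) := by
        refine ⟨0, ?_⟩
        rintro _ ⟨n, rfl⟩
        exact div_nonneg (Real.log_natCast_nonneg _) (by positivity)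
      have h1 := ciInf_le hb n
      rw [← hYdef] at h1
      rw [le_div_iff₀ (by positivity)] at h1
      push_cast
      exact h1
  have key : ∀ s : ℕ, 1 ≤ s → (s : ℝ) ^ 2 * (Real.log (1 + c) + (L : ℝ) ^ 2 * hY) ≤
      (L : ℝ) ^ 2 * Real.log (N X s) := by
    intro s hs
    apply limit_ineq (by positivity) (by positivity)
    intro t ht
    have hst : 1 ≤ s * t := Nat.one_le_iff_ne_zero.mpr (by positivity)
    obtain ⟨q, hq⟩ : ∃ q, s * t = q + 1 := ⟨s * t - 1, by omega⟩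
    have h1 := h q
    have h2 : N X (L * (q + 1)) ≤ N X s ^ ((L * t) ^ 2) := by
      rw [← hq, show L * (s * t) = s * (L * t) by ring]
      exact N_mul_le hX s (L * t)
    have h3 : (1 + c) ^ (q ^ 2) * (N Y (L * q) : ℝ) ≤ (N X s : ℝ) ^ ((L * t) ^ 2) := by
      refine h1.trans ?_
      exact_mod_cast h2
    have hNY : (0:ℝ) < N Y (L * q) := by exact_mod_cast N_pos hYne _
    have h4 := log_step hc hNY h3
    have h5 := hYle (L * q)
    push_cast at h4 h5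
    have h6 : (q : ℝ) = s * t - 1 := by
      have : ((s * t : ℕ) : ℝ) = ((q + 1 : ℕ) : ℝ) := by rw [hq]
      push_cast at this
      linarith
    rw [h6] at h4 h5
    nlinarith
  have hge : hY + Real.log (1 + c) / (L : ℝ) ^ 2 ≤
      ⨅ n : ℕ, Real.log ((N X (n + 1) : ℕ) : ℝ) / ((n : ℝ) + 1) ^ 2 := by
    apply le_ciInf
    intro n
    have h1 := key (n + 1) (by omega)
    rw [le_div_iff₀ (by positivity)]
    push_cast at h1
    have h2 : (hY + Real.log (1 + c) / (L : ℝ) ^ 2) * ((n : ℝ) + 1) ^ 2 =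
        (((n : ℝ) + 1) ^ 2 * (Real.log (1 + c) + (L : ℝ) ^ 2 * hY)) / (L : ℝ) ^ 2 := by
      field_simp
      ring
    rw [h2, div_le_iff₀ (by positivity)]
    linarith
  have : 0 < Real.log (1 + c) / (L : ℝ) ^ 2 := by positivity
  linarith

end Pool.Agent.Hhelper32.Weiss
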