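import Pool.Agent.Hhelper32.Weiss.Ineq
import Pool.Agent.Hhelper32.Weiss.Entropy

set_option autoImplicit false

/-!
# A sofic shift without finite type cover of equal entropy
-/

namespace Pool.Agent.Hhelper32.Weiss

open Finset Classical

theorem Yset_nonempty : Yset.Nonempty := by
  refine ⟨fun _ => 0, fun _ => .zero, ?_, fun v => rfl⟩
  intro v
  exact ⟨trivial, trivial, trivial⟩

/-- the shift `Yset` is sofic -/
theorem Yset_sofic : ∃ (m : ℕ) (F : Finset (Fin 2 → ℤ)) (P : Set (F → Fin m))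
    (G : Finset (Fin 2 → ℤ)) (Φ : (G → Fin m) → Fin 6),
    Yset = {x | ∃ y : (Fin 2 → ℤ) → Fin m,
      (∀ v : Fin 2 → ℤ, (fun u : F => y ((u : Fin 2 → ℤ) + v)) ∈ P) ∧
      x = fun v => Φ (fun u : G => y ((u : Fin 2 → ℤ) + v))} := by
  let e : St ≃ Fin (Fintype.card St) := Fintype.equivFin St
  let F : Finset (Fin 2 → ℤ) := {0, e1, e2}
  have h0 : (0 : Fin 2 → ℤ) ∈ F := by simp [F]
  have h1 : e1 ∈ F := by simp [F]
  have h2 : e2 ∈ F := by simp [F]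
  let G : Finset (Fin 2 → ℤ) := {0}
  have g0 : (0 : Fin 2 → ℤ) ∈ G := by simp [G]
  refine ⟨Fintype.card St, F, {p | Good (e.symm (p ⟨0, h0⟩)) ∧
    HRel (e.symm (p ⟨0, h0⟩)) (e.symm (p ⟨e1, h1⟩)) ∧
    VRel (e.symm (p ⟨0, h0⟩)) (e.symm (p ⟨e2, h2⟩))}, G,
    fun p => vis (e.symm (p ⟨0, g0⟩)), ?_⟩
  ext x
  constructor
  · rintro ⟨z, hz, hx⟩
    refine ⟨fun v => e (z v), ?_, ?_⟩
    · intro v
      have := hz v
      simp only [Set.mem_setOf_eq, Equiv.symm_apply_apply, zero_add]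
      rw [add_comm e1 v, add_comm e2 v]
      exact this
    · funext v
      simp only [Equiv.symm_apply_apply, zero_add]
      exact hx v
  · rintro ⟨y, hy, hx⟩
    refine ⟨fun v => e.symm (y v), ?_, ?_⟩
    · intro v
      have := hy v
      simp only [Set.mem_setOf_eq, zero_add] at this
      rw [add_comm e1 v, add_comm e2 v] at this
      exact this
    · intro v
      rw [hx]
      simp only [zero_add]

theorem exists_radius (F : Finset (Fin 2 → ℤ)) : ∃ ρ : ℕ, ∀ u ∈ F, ∀ i, |u i| ≤ (ρ : ℤ) := by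
  refine ⟨∑ u ∈ F, ∑ i, (u i).natAbs, ?_⟩
  intro u hu i
  have h1 : (u i).natAbs ≤ ∑ i, (u i).natAbs :=
    Finset.single_le_sum (f := fun i => (u i).natAbs) (fun _ _ => Nat.zero_le _)
      (Finset.mem_univ i)
  have h2 : ∑ i, (u i).natAbs ≤ ∑ u ∈ F, ∑ i, (u i).natAbs :=
    Finset.single_le_sum (f := fun u => ∑ i, (u i).natAbs) (fun _ _ => Nat.zero_le _) hu
  rw [Int.abs_eq_natAbs]
  exact_mod_cast h1.trans h2

theorem card_bound (m ρ : ℕ) : ∃ K : ℕ, 1 ≤ K ∧ m ^ ((K + 4 * ρ) ^ 2 - K ^ 2) < 2 ^ (K ^ 2) := by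
  refine ⟨8 * ρ * m + 16 * ρ ^ 2 * m + 1, by omega, ?_⟩
  set K := 8 * ρ * m + 16 * ρ ^ 2 * m + 1 with hK
  have h1 : (K + 4 * ρ) ^ 2 - K ^ 2 = 8 * ρ * K + 16 * ρ ^ 2 := by
    have : (K + 4 * ρ) ^ 2 = K ^ 2 + (8 * ρ * K + 16 * ρ ^ 2) := by ring
    omega
  rw [h1]
  have hm : m < 2 ^ m := Nat.lt_two_pow_self
  calc m ^ (8 * ρ * K + 16 * ρ ^ 2) ≤ (2 ^ m) ^ (8 * ρ * K + 16 * ρ ^ 2) :=
        Nat.pow_le_pow_left hm.le _
    _ = 2 ^ (m * (8 * ρ * K + 16 * ρ ^ 2)) := by rw [← pow_mul]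
    _ < 2 ^ (K ^ 2) := by
        apply Nat.pow_lt_pow_right (by norm_num)
        have hK1 : 1 ≤ K := by omega
        have h2 : K ^ 2 = 8 * ρ * m * K + 16 * ρ ^ 2 * m * K + K := by
          conv_lhs => rw [pow_two]; arg 1; rw [hK]
          ring
        rw [h2]
        have h3 : 16 * ρ ^ 2 * m * 1 ≤ 16 * ρ ^ 2 * m * K := Nat.mul_le_mul_left _ hK1
        nlinarith

/-- no finite type cover has the same entropy -/
theorem no_cover {m : ℕ} (F : Finset (Fin 2 → ℤ)) (R : Set (F → Fin m))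
    (G : Finset (Fin 2 → ℤ)) (Φ : (G → Fin m) → Fin 6)
    (hY : Yset = {y | ∃ z ∈ sft R, y = code Φ z}) :
    (⨅ n : ℕ, Real.log ((N Yset (n + 1) : ℕ) : ℝ) / ((n : ℝ) + 1) ^ 2) <
    (⨅ n : ℕ, Real.log ((N (sft R) (n + 1) : ℕ) : ℝ) / ((n : ℝ) + 1) ^ 2) := by
  obtain ⟨ρ1, h1⟩ := exists_radius F
  obtain ⟨ρ2, h2⟩ := exists_radius G
  set ρ := max ρ1 ρ2 with hρ
  have hF : ∀ u ∈ F, ∀ i, |u i| ≤ (ρ : ℤ) := fun u hu i =>
    (h1 u hu i).trans (by exact_mod_cast le_max_left _ _)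
  have hG : ∀ u ∈ G, ∀ i, |u i| ≤ (ρ : ℤ) := fun u hu i =>
    (h2 u hu i).trans (by exact_mod_cast le_max_right _ _)
  obtain ⟨K, hK, hcard⟩ := card_bound m ρ
  obtain ⟨c, hc, hq⟩ := count_ineq (R := R) (Φ := Φ) hK hF hG hY hcard
  have hS : ShiftInv (sft R) := by
    intro z hz t v
    have := hz (v + t)
    simp only [← add_assoc] at this
    exact this
  refine entropy_gap hS Yset_nonempty (L := 2 * hs ρ K) (by unfold hs; omega) hc ?_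
  intro q
  have h3 := hq q
  have h4 : (BY (box 0 ((sd ρ K q : ℤ) - 1))).card = N Yset (2 * hs ρ K * q) := rfl
  rw [h4] at h3
  refine h3.trans ?_
  have h5 : (BX R (box (-(ρ : ℤ)) ((sd ρ K q : ℤ) - 1 + ρ))).card ≤
      N (sft R) (2 * hs ρ K * (q + 1)) := by
    have : (BX R (box (-(ρ : ℤ)) ((sd ρ K q : ℤ) - 1 + ρ))) =
      patt (sft R) (box (-(ρ : ℤ)) ((sd ρ K q : ℤ) - 1 + ρ)) := rfl
    rw [this]
    apply patt_card_le hS (fun _ => (ρ : ℤ))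
    intro v hv
    rw [mem_box] at hv
    rw [mem_sq]
    simp only [Pi.add_apply]
    unfold sd at hv
    have h6 : 2 * hs ρ K * (q + 1) = 2 * hs ρ K * q + 2 * hs ρ K := by ring
    rw [h6]
    push_cast at hv ⊢
    have h7 : (2 * (ρ : ℤ)) ≤ 2 * (hs ρ K : ℤ) := by unfold hs; push_cast; linarith
    refine ⟨⟨by linarith, by linarith⟩, by linarith, by linarith⟩
  exact_mod_cast h5

/-- **Weiss' question has a negative answer.** -/
theorem main : ¬ (∀ (d : ℕ), 2 ≤ d → ∀ (k : ℕ) (X : Set ((Fin d → ℤ) → Fin k)),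
    (∃ (m : ℕ) (F : Finset (Fin d → ℤ)) (P : Set (F → Fin m)) (G : Finset (Fin d → ℤ))
        (Φ : (G → Fin m) → Fin k),
      X = {x | ∃ y : (Fin d → ℤ) → Fin m,
        (∀ v : Fin d → ℤ, (fun u : F => y ((u : Fin d → ℤ) + v)) ∈ P) ∧
        x = fun v => Φ (fun u : G => y ((u : Fin d → ℤ) + v))}) →
    ∃ (m : ℕ) (F : Finset (Fin d → ℤ)) (P : Set (F → Fin m)) (G : Finset (Fin d → ℤ))
        (Φ : (G → Fin m) → Fin k) (Y : Set ((Fin d → ℤ) → Fin m)),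
      Y = {y | ∀ v : Fin d → ℤ, (fun u : F => y ((u : Fin d → ℤ) + v)) ∈ P} ∧
      X = {x | ∃ y ∈ Y, x = fun v => Φ (fun u : G => y ((u : Fin d → ℤ) + v))} ∧
      (⨅ n : ℕ, Real.log ((({p : (Fin d → Fin (n+1)) → Fin m |
          ∃ y ∈ Y, ∀ i, p i = y (fun j => ((i j : ℕ) : ℤ))}.ncard : ℕ) : ℝ))
          / ((n : ℝ) + 1) ^ d) =
      (⨅ n : ℕ, Real.log ((({p : (Fin d → Fin (n+1)) → Fin k |
          ∃ x ∈ X, ∀ i, p i = x (fun j => ((i j : ℕ) : ℤ))}.ncard : ℕ) : ℝ))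
          / ((n : ℝ) + 1) ^ d)) := by
  intro h
  obtain ⟨m, F, P, G, Φ, Y, hY, hX, hent⟩ := h 2 le_rfl 6 Yset Yset_sofic
  subst hY
  have hlt := no_cover F P G Φ hX
  apply hlt.ne
  have a1 : ∀ n : ℕ, (({p : (Fin 2 → Fin (n+1)) → Fin m |
      ∃ y ∈ sft P, ∀ i, p i = y (fun j => ((i j : ℕ) : ℤ))}.ncard : ℕ) : ℝ) =
      ((N (sft P) (n + 1) : ℕ) : ℝ) := fun n => by rw [ncard_eq_N]
  have a2 : ∀ n : ℕ, (({p : (Fin 2 → Fin (n+1)) → Fin 6 |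
      ∃ x ∈ Yset, ∀ i, p i = x (fun j => ((i j : ℕ) : ℤ))}.ncard : ℕ) : ℝ) =
      ((N Yset (n + 1) : ℕ) : ℝ) := fun n => by rw [ncard_eq_N]
  simp_rw [← a1, ← a2]
  exact hent.symm

end Pool.Agent.Hhelper32.Weiss
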