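import Pool.Agent.Hhelper32.Weiss.Window

set_option autoImplicit false

/-!
# The counting inequality
-/

namespace Pool.Agent.Hhelper32.Weiss

open Finset Classical

variable {m : ℕ} {F G : Finset V} {R : Set (F → Fin m)} {Φ : (G → Fin m) → Fin 6}

/-- square boxes -/
noncomputable def box (a b : ℤ) : Finset V := Finset.Icc ![a, a] ![b, b]

theorem mem_box {a b : ℤ} {v : V} : v ∈ box a b ↔ (a ≤ v 0 ∧ a ≤ v 1) ∧ (v 0 ≤ b ∧ v 1 ≤ b) := by
  simp [box, Finset.mem_Icc, Pi.le_def, Fin.forall_fin_two]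

/-- half side of the windows -/
def hs (ρ K : ℕ) : ℕ := 4 * ρ + K + 4

/-- centers of the windows -/
def ctr (ρ K : ℕ) (q : ℕ) (i : Fin q × Fin q) : V :=
  ![(hs ρ K : ℤ) * (2 * (i.1 : ℕ) + 1), (hs ρ K : ℤ) * (2 * (i.2 : ℕ) + 1)]

theorem mem_win_ctr {ρ K q : ℕ} {i : Fin q × Fin q} {v : V} :
    v ∈ win ρ K (ctr ρ K q i) ↔
      ((hs ρ K : ℤ) * (2 * (i.1 : ℕ)) ≤ v 0 ∧ (hs ρ K : ℤ) * (2 * (i.2 : ℕ)) ≤ v 1) ∧
      (v 0 ≤ (hs ρ K : ℤ) * (2 * (i.1 : ℕ) + 2) - 1 ∧
        v 1 ≤ (hs ρ K : ℤ) * (2 * (i.2 : ℕ) + 2) - 1) := by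
  rw [mem_win]
  simp only [ctr, hs, Matrix.cons_val_zero, Matrix.cons_val_one]
  push_cast
  constructor
  · rintro ⟨⟨h1, h2⟩, h3, h4⟩
    refine ⟨⟨?_, ?_⟩, ?_, ?_⟩ <;> linarith
  · rintro ⟨⟨h1, h2⟩, h3, h4⟩
    refine ⟨⟨?_, ?_⟩, ?_, ?_⟩ <;> linarith

theorem win_disj {ρ K q : ℕ} (i j : Fin q × Fin q) (hij : i ≠ j) :
    Disjoint (win ρ K (ctr ρ K q i)) (win ρ K (ctr ρ K q j)) := by
  rw [Finset.disjoint_left]
  intro v hi hj
  rw [mem_win_ctr] at hi hj
  have hpos : (0:ℤ) < hs ρ K := by unfold hs; positivity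
  apply hij
  have key : ∀ a b : ℕ, ∀ c : ℤ, (hs ρ K : ℤ) * (2 * a) ≤ c → c ≤ (hs ρ K : ℤ) * (2 * a + 2) - 1 →
      (hs ρ K : ℤ) * (2 * b) ≤ c → c ≤ (hs ρ K : ℤ) * (2 * b + 2) - 1 → a = b := by
    intro a b c h1 h2 h3 h4
    have h5 : (hs ρ K : ℤ) * (2 * a) < (hs ρ K : ℤ) * (2 * b + 2) := by linarith
    have h6 : (hs ρ K : ℤ) * (2 * b) < (hs ρ K : ℤ) * (2 * a + 2) := by linarith
    have h7 := lt_of_mul_lt_mul_left h5 hpos.le
    have h8 := lt_of_mul_lt_mul_left h6 hpos.le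
    omega
  apply Prod.ext
  · exact Fin.ext (key _ _ _ hi.1.1 hi.2.1 hj.1.1 hj.2.1)
  · exact Fin.ext (key _ _ _ hi.1.2 hi.2.2 hj.1.2 hj.2.2)

/-- side of the tiled box -/
def sd (ρ K q : ℕ) : ℕ := 2 * hs ρ K * q

theorem win_sub {ρ K q : ℕ} (i : Fin q × Fin q) :
    win ρ K (ctr ρ K q i) ⊆ box 0 ((sd ρ K q : ℤ) - 1) := by
  intro v hi
  rw [mem_win_ctr] at hi
  rw [mem_box]
  have hpos : (0:ℤ) ≤ hs ρ K := by positivity
  have h1 : ((i.1 : ℕ) : ℤ) + 1 ≤ q := by have := i.1.2; omega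
  have h2 : ((i.2 : ℕ) : ℤ) + 1 ≤ q := by have := i.2.2; omega
  have h3 := mul_le_mul_of_nonneg_left h1 hpos
  have h4 := mul_le_mul_of_nonneg_left h2 hpos
  have h5 : 0 ≤ (hs ρ K : ℤ) * (2 * ((i.1 : ℕ) : ℤ)) := by positivity
  have h6 : 0 ≤ (hs ρ K : ℤ) * (2 * ((i.2 : ℕ) : ℤ)) := by positivity
  unfold sd
  push_cast
  refine ⟨⟨by linarith, by linarith⟩, by nlinarith, by nlinarith⟩

theorem box_eq_biUnion {ρ K q : ℕ} :
    (Finset.univ : Finset (Fin q × Fin q)).biUnion (fun i => win ρ K (ctr ρ K q i)) =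
      box 0 ((sd ρ K q : ℤ) - 1) := by
  apply Finset.Subset.antisymm
  · exact Finset.biUnion_subset.mpr fun i _ => win_sub i
  · intro v hv
    rw [mem_box] at hv
    have hpos : (0:ℤ) < 2 * hs ρ K := by unfold hs; positivity
    have key : ∀ c : ℤ, 0 ≤ c → c ≤ (sd ρ K q : ℤ) - 1 → ∃ a : Fin q,
        (hs ρ K : ℤ) * (2 * ((a : ℕ) : ℤ)) ≤ c ∧ c ≤ (hs ρ K : ℤ) * (2 * ((a : ℕ) : ℤ) + 2) - 1 := by
      intro c h1 h2
      have h3 : 0 ≤ c / (2 * hs ρ K) := Int.ediv_nonneg h1 hpos.le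
      have h4 : c / (2 * hs ρ K) < q := by
        apply Int.ediv_lt_of_lt_mul hpos
        unfold sd at h2
        push_cast at h2
        linarith
      refine ⟨⟨(c / (2 * hs ρ K)).toNat, by omega⟩, ?_⟩
      simp only
      rw [Int.toNat_of_nonneg h3]
      have h5 := Int.mul_ediv_add_emod c (2 * hs ρ K)
      have h6 := Int.emod_nonneg c hpos.ne'
      have h7 := Int.emod_lt_of_pos c hpos
      constructor
      · linarith
      · linarith
    obtain ⟨a, ha1, ha2⟩ := key (v 0) hv.1.1 hv.2.1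
    obtain ⟨b, hb1, hb2⟩ := key (v 1) hv.1.2 hv.2.2
    rw [Finset.mem_biUnion]
    exact ⟨(a, b), Finset.mem_univ _, mem_win_ctr.mpr ⟨⟨ha1, hb1⟩, ha2, hb2⟩⟩

/-- the main counting inequality -/
theorem count_ineq {ρ K : ℕ} (hK : 1 ≤ K)
    (hF : ∀ u ∈ F, ∀ i, |u i| ≤ (ρ : ℤ)) (hG : ∀ u ∈ G, ∀ i, |u i| ≤ (ρ : ℤ))
    (hY : Yset = {y | ∃ z ∈ sft R, y = code Φ z})
    (hcard : m ^ ((K + 4 * ρ) ^ 2 - K ^ 2) < 2 ^ (K ^ 2)) :
    ∃ c : ℝ, 0 < c ∧ ∀ q : ℕ,
      (1 + c) ^ (q ^ 2) * ((BY (box 0 ((sd ρ K q : ℤ) - 1))).card : ℝ) ≤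
        ((BX R (box (-(ρ : ℤ)) ((sd ρ K q : ℤ) - 1 + ρ))).card : ℝ) := by
  have hP0card : (P0 ρ K).card = K ^ 2 := by
    have : P0 ρ K = Fintype.piFinset (fun i => Finset.Icc ((![2 * (ρ : ℤ), 1] : V) i)
        ((![2 * (ρ : ℤ) + K - 1, K] : V) i)) := by
      ext v
      simp [P0, Finset.mem_Icc, Pi.le_def, Fintype.mem_piFinset, Fin.forall_fin_two]
      tauto
    rw [this, Fintype.card_piFinset]
    simp only [Fin.prod_univ_two, Int.card_Icc, Matrix.cons_val_zero, Matrix.cons_val_one]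
    have h1 : (2 * (ρ : ℤ) + K - 1 + 1 - 2 * ρ).toNat = K := by omega
    have h2 : ((K : ℤ) + 1 - 1).toNat = K := by omega
    rw [h1, h2, pow_two]
  have hDcard : Fintype.card (Dat ρ K) = 2 ^ (K ^ 2) := by
    unfold Dat
    rw [Fintype.card_fun, Fintype.card_bool, Fintype.card_coe, hP0card]
  have hD2 : 2 ≤ Fintype.card (Dat ρ K) := by
    rw [hDcard]
    calc 2 = 2 ^ 1 := rfl
      _ ≤ 2 ^ (K ^ 2) := Nat.pow_le_pow_right (by norm_num) (Nat.one_le_pow _ _ hK)
  obtain ⟨ε, hε, hgap⟩ := exists_gap hD2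
  -- the number of patterns of a window does not depend on the window
  have hwcard : ∀ t, Fintype.card (win ρ K t → Fin 6) = 6 ^ ((2 * hs ρ K) ^ 2) := by
    intro t
    rw [Fintype.card_fun, Fintype.card_fin, Fintype.card_coe]
    congr 1
    have : win ρ K t = Fintype.piFinset (fun i => Finset.Icc
        ((![t 0 - (4 * (ρ : ℤ) + K + 4), t 1 - (4 * (ρ : ℤ) + K + 4)] : V) i)
        ((![t 0 + (4 * (ρ : ℤ) + K + 4) - 1, t 1 + (4 * (ρ : ℤ) + K + 4) - 1] : V) i)) := by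
      ext v
      simp [win, Finset.mem_Icc, Pi.le_def, Fintype.mem_piFinset, Fin.forall_fin_two]
      tauto
    rw [this, Fintype.card_piFinset]
    simp only [Fin.prod_univ_two, Int.card_Icc, Matrix.cons_val_zero, Matrix.cons_val_one]
    have h1 : (t 0 + (4 * (ρ : ℤ) + K + 4) - 1 + 1 - (t 0 - (4 * (ρ : ℤ) + K + 4))).toNat =
      2 * hs ρ K := by unfold hs; omega
    have h2 : (t 1 + (4 * (ρ : ℤ) + K + 4) - 1 + 1 - (t 1 - (4 * (ρ : ℤ) + K + 4))).toNat =
      2 * hs ρ K := by unfold hs; omega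
    rw [h1, h2, pow_two]
  refine ⟨ε / ((6 ^ ((2 * hs ρ K) ^ 2) : ℕ) : ℝ), by positivity, ?_⟩
  intro q
  set κ : ℝ := 1 + ε / ((6 ^ ((2 * hs ρ K) ^ 2) : ℕ) : ℝ) with hκ
  have hκpos : 0 < κ := by positivity
  set Q : Finset V := box 0 ((sd ρ K q : ℤ) - 1) with hQdef
  set Q' : Finset V := box (-(ρ : ℤ)) ((sd ρ K q : ℤ) - 1 + ρ) with hQ'def
  have habs : ∀ {u : V}, (∀ i, |u i| ≤ (ρ : ℤ)) →
      -(ρ : ℤ) ≤ u 0 ∧ u 0 ≤ ρ ∧ -(ρ : ℤ) ≤ u 1 ∧ u 1 ≤ ρ := by
    intro u hu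
    have h0 := abs_le.mp (hu 0)
    have h1 := abs_le.mp (hu 1)
    exact ⟨h0.1, h0.2, h1.1, h1.2⟩
  have hQG : ∀ v ∈ Q, ∀ u ∈ G, u + v ∈ Q' := by
    intro v hv u hu
    have h1 := habs (hG u hu)
    rw [mem_box] at hv ⊢
    simp only [Pi.add_apply]
    omega
  -- every image pattern is in the sofic shift
  have hbase : ∀ u : V → Fin 6, (num (BY Q) (imY Q) Q u : ℝ) ≤ num (BX R Q') (imX R Φ Q') Q u := by
    intro u
    have h1 : num (BY Q) (imY Q) Q u ≤ num (BX R Q') (imX R Φ Q') Q u := by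
      rcases Nat.eq_zero_or_pos (num (BY Q) (imY Q) Q u) with h0 | h0
      · rw [h0]; exact Nat.zero_le _
      · have hone : num (BY Q) (imY Q) Q u ≤ 1 := by
          unfold num
          rw [Finset.card_le_one]
          intro p hp p' hp'
          rw [Finset.mem_filter] at hp hp'
          funext v
          have g1 := hp.2 v v.2
          have g2 := hp'.2 v v.2
          rw [imY_eq v.2] at g1 g2
          rw [show p v = p ⟨(v : V), v.2⟩ from rfl, show p' v = p' ⟨(v : V), v.2⟩ from rfl, g1, g2]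
        refine hone.trans ?_
        unfold num at h0
        obtain ⟨p, hp⟩ := Finset.card_pos.mp h0
        rw [Finset.mem_filter] at hp
        obtain ⟨y, hy, hpy⟩ := mem_BY.mp hp.1
        rw [hY] at hy
        obtain ⟨z, hz, hyz⟩ := hy
        unfold num
        apply Finset.card_pos.mpr
        refine ⟨fun v : Q' => z v, ?_⟩
        rw [Finset.mem_filter]
        refine ⟨mem_BX.mpr ⟨z, hz, fun v => rfl⟩, ?_⟩
        intro v hv
        rw [imX_eq hQG hz (fun v => rfl) hv, ← hyz]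
        have g := hp.2 v hv
        rw [imY_eq hv, hpy ⟨v, hv⟩] at g
        exact g
    exact_mod_cast h1
  have hit := iterate (BX R Q') (imX R Φ Q') (BY Q) (imY Q) Q
    (fun i : Fin q × Fin q => win ρ K (ctr ρ K q i)) hκpos (fun i j hij => win_disj i j hij)
    (fun i => win_sub i) (by
      intro i T hT U hUQ hUw hstep u
      have hwQ : win ρ K (ctr ρ K q i) ⊆ Q := win_sub i
      set t := ctr ρ K q i with ht
      have hnone : ∀ x, num (BX R Q') (imX R Φ Q') (U ∪ win ρ K t)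
          (glue (win ρ K t) u (fun v => gdt (ρ := ρ) (K := K) t x x v)) = 0 := by
        intro x
        unfold num
        rw [Finset.card_eq_zero, Finset.filter_eq_empty_iff]
        intro p hp hall
        obtain ⟨z, hz, hpz⟩ := mem_BX.mp hp
        have hc : code Φ z ∈ Yset := by rw [hY]; exact ⟨z, hz, rfl⟩
        refine no_symmetric hK t x hc ?_
        intro v hv
        have g := hall v (Finset.mem_union_right _ hv)
        rw [imX_eq hQG hz hpz (hwQ hv), glue_mem hv] at g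
        exact g
      have hgeoF : ∀ v ∈ Pt ρ K t ρ, ∀ u ∈ F, u + v ∈ Pt ρ K t (2 * ρ) := by
        intro v hv u hu
        have h1 := habs (hF u hu)
        rw [mem_Pt] at hv ⊢
        simp only [Pi.add_apply]
        omega
      have hgeoG : ∀ v ∈ Pt ρ K t ρ, ∀ u ∈ G, u + v ∈ Pt ρ K t (2 * ρ) := by
        intro v hv u hu
        have h1 := habs (hG u hu)
        rw [mem_Pt] at hv ⊢
        simp only [Pi.add_apply]
        omega
      have hgeoF2 : ∀ v, v ∉ Pt ρ K t ρ → ∀ u ∈ F, u + v ∉ Pt ρ K t 0 := by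
        intro v hv u hu h2
        have h1 := habs (hF u hu)
        apply hv
        rw [mem_Pt] at h2 ⊢
        simp only [Pi.add_apply] at h2
        omega
      have hgeoG2 : ∀ v, v ∉ Pt ρ K t ρ → ∀ u ∈ G, u + v ∉ Pt ρ K t 0 := by
        intro v hv u hu h2
        have h1 := habs (hG u hu)
        apply hv
        rw [mem_Pt] at h2 ⊢
        simp only [Pi.add_apply] at h2
        omega
      have hP1w : Pt ρ K t ρ ⊆ win ρ K t := by
        intro v hv
        rw [mem_Pt] at hv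
        rw [mem_win]
        omega
      have hP2w : Pt ρ K t (2 * ρ) ⊆ win ρ K t := by
        intro v hv
        rw [mem_Pt] at hv
        rw [mem_win]
        omega
      have hQQ' : Q ⊆ Q' := by
        intro v hv
        rw [mem_box] at hv ⊢
        omega
      have hstrip : (Pt ρ K t (2 * ρ) \ Pt ρ K t 0).card = (K + 4 * ρ) ^ 2 - K ^ 2 := by
        have hc : ∀ r : ℕ, (Pt ρ K t r).card = (K + 2 * r) ^ 2 := by
          intro r
          have : Pt ρ K t r = Fintype.piFinset (fun i => Finset.Icc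
              ((![2 * (ρ : ℤ) + t 0 - r, 1 + t 1 - r] : V) i)
              ((![2 * (ρ : ℤ) + K - 1 + t 0 + r, K + t 1 + r] : V) i)) := by
            ext v
            simp [Pt, Finset.mem_Icc, Pi.le_def, Fintype.mem_piFinset, Fin.forall_fin_two]
            tauto
          rw [this, Fintype.card_piFinset]
          simp only [Fin.prod_univ_two, Int.card_Icc, Matrix.cons_val_zero, Matrix.cons_val_one]
          have h1 : (2 * (ρ : ℤ) + K - 1 + t 0 + r + 1 - (2 * ρ + t 0 - r)).toNat = K + 2 * r := by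
            omega
          have h2 : ((K : ℤ) + t 1 + r + 1 - (1 + t 1 - r)).toNat = K + 2 * r := by omega
          rw [h1, h2, pow_two]
        have hc2 := hc (2 * ρ)
        have hc0 := hc 0
        push_cast at hc2 hc0
        rw [Finset.card_sdiff_of_subset, hc2, hc0]
        · congr 1
          ring
        · intro v hv
          rw [mem_Pt] at hv ⊢
          omega
      have hmain := gain (D := Dat ρ K) (BX R Q') (imX R Φ Q') (BY Q) (imY Q) (win ρ K t)
        (fun x y => gdt t x y) (fun x y x' y' h => gdt_inj t x y x' y' h) U hUw u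
        (fun x y hxy qq => comp_gadget t hxy hwQ hUQ u qq) hnone
        (det_zero (P := Pt ρ K t 0) (P1 := Pt ρ K t ρ) (P2 := Pt ρ K t (2 * ρ))
          hgeoF hgeoF2 hgeoG hgeoG2 hQG (hP2w.trans (hwQ.trans hQQ')) hP1w hwQ hUQ _
          (fun x x' y => gdt_indep_left t x x' y) (fun x y y' => gdt_indep_right t x y y')
          (by rw [hstrip, hDcard]; exact hcard) u)
        hD2 hε hgap hT hstep
      rw [hwcard t] at hmain
      exact hmain)
    Finset.univ ∅ (Finset.disjoint_empty_right _) (by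
      intro u
      rw [Finset.union_empty, box_eq_biUnion]
      exact hbase u) (fun _ => 0)
  have e1 : num (BX R Q') (imX R Φ Q') ((∅ : Finset (Fin q × Fin q)).biUnion
      (fun i => win ρ K (ctr ρ K q i))) (fun _ => 0) = (BX R Q').card := by
    simp [num]
  have e2 : num (BY Q) (imY Q) ((∅ : Finset (Fin q × Fin q)).biUnion
      (fun i => win ρ K (ctr ρ K q i))) (fun _ => 0) = (BY Q).card := by
    simp [num]
  rw [e1, e2] at hit
  have e3 : (Finset.univ : Finset (Fin q × Fin q)).card = q ^ 2 := by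
    simp [pow_two]
  rw [e3] at hit
  exact hit

end Pool.Agent.Hhelper32.Weiss
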