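import Mathlib

set_option autoImplicit false

/-!
# Labels of the finite type cover

The sofic shift used to answer Weiss' question is the image of a nearest neighbour shift of
finite type. Its states are `zero` (a safe state), `wall`, and `cell h b r r2 c e t`:
`h` is the half (false = left, true = right), `b` the visible bit, the others are hidden labels.
-/

namespace Pool.Agent.Hhelper32.Weiss

/-- sites -/
abbrev V := Fin 2 → ℤ

/-- the unit vectors -/
def e1 : V := ![1, 0]
def e2 : V := ![0, 1]

/-- states of the finite type cover -/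
inductive St : Type
  | zero : St
  | wall : St
  | cell (h b : Bool) (r r2 c e : SignType) (t : Bool) : St
deriving DecidableEq

/-- code of a state -/
def St.code : St → Option (Option (Bool × Bool × SignType × SignType × SignType × SignType × Bool))
  | .zero => none
  | .wall => some none
  | .cell h b r r2 c e t => some (some (h, b, r, r2, c, e, t))

theorem St.code_injective : Function.Injective St.code := by
  intro s s' h
  cases s <;> cases s' <;> simp_all [St.code]

instance : Finite St := Finite.of_injective St.code St.code_injective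

noncomputable instance : Fintype St := Fintype.ofFinite St

/-- sign of an integer -/
def sgn (n : ℤ) : SignType := if n < 0 then .neg else if n = 0 then .zero else .pos

/-- possible signs of `n`, `n+1` -/
def Step : SignType → SignType → Prop
  | .neg, .neg => True
  | .neg, .zero => True
  | .zero, .pos => True
  | .pos, .pos => True
  | _, _ => False

theorem step_sgn (n : ℤ) : Step (sgn n) (sgn (n + 1)) := by
  unfold sgn
  by_cases h1 : n < 0
  · by_cases h2 : n + 1 < 0
    · simp only [h1, h2, if_true]; trivial
    · have h3 : n + 1 = 0 := by omega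
      simp only [h1, h3, if_true]; trivial
  · by_cases h2 : n = 0
    · subst h2; simp only [lt_self_iff_false, if_false, if_true]; norm_num; trivial
    · have h3 : ¬ (n + 1 < 0) := by omega
      have h4 : ¬ (n + 1 = 0) := by omega
      simp only [h1, h2, h3, h4, if_false]; trivial

theorem step_sgn' {m n : ℤ} (h : n = m + 1) : Step (sgn m) (sgn n) := by
  subst h; exact step_sgn m

theorem sgn_ne_pos {n : ℤ} (h : n ≤ 0) : sgn n ≠ .pos := by
  unfold sgn
  split_ifs with h1 h2
  · decide
  · decide
  · omega

theorem sgn_ne_neg {n : ℤ} (h : 0 ≤ n) : sgn n ≠ .neg := by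
  unfold sgn
  split_ifs with h1 h2
  · omega
  · decide
  · decide

theorem sgn_eq_zero {n : ℤ} (h : sgn n = .zero) : n = 0 := by
  unfold sgn at h
  split_ifs at h with h1 h2
  exact h2

/-- the one-site rule -/
def Good : St → Prop
  | .cell h b r r2 c e t =>
      (r2 = .zero → c = .zero → e = .zero) ∧ (r = .zero → c = .zero → b = xor t h)
  | _ => True

/-- the horizontal rule: first the left state, then the right state -/
def HRel : St → St → Prop
  | .zero, _ => True
  | _, .zero => True
  | .wall, .wall => True
  | .wall, .cell h _ _ _ c _ _ => h = false ∧ c ≠ .neg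
  | .cell h _ _ _ c _ _, .wall => h = true ∧ c ≠ .neg
  | .cell h _ r r2 c e t, .cell h' _ r' r2' c' e' t' =>
      r = r' ∧ r2 = r2' ∧ t = t' ∧
      ((h = false ∧ h' = false ∧ Step c' c ∧ Step e e') ∨
       (h = true ∧ h' = true ∧ Step c c' ∧ Step e' e) ∨
       (h = false ∧ h' = true ∧ c ≠ .pos ∧ c' ≠ .pos ∧ e ≠ .neg ∧ e' ≠ .neg))

/-- the vertical rule: first the lower state, then the upper state -/
def VRel : St → St → Prop
  | .zero, _ => True
  | _, .zero => True
  | .wall, .wall => True
  | .wall, .cell _ _ r r2 _ e _ => r ≠ .pos ∧ r2 ≠ .pos ∧ e ≠ .pos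
  | .cell _ _ r r2 _ _ _, .wall => r ≠ .neg ∧ r2 ≠ .neg
  | .cell h _ r r2 c e _, .cell h' _ r' r2' c' e' _ =>
      h = h' ∧ c = c' ∧ Step r r' ∧ Step r2 r2' ∧ Step e e'

theorem HRel_zero_left (s : St) : HRel .zero s := by cases s <;> trivial
theorem HRel_zero_right (s : St) : HRel s .zero := by cases s <;> trivial
theorem VRel_zero_left (s : St) : VRel .zero s := by cases s <;> trivial
theorem VRel_zero_right (s : St) : VRel s .zero := by cases s <;> trivial

/-- valid labelled configurations -/
def Valid (z : V → St) : Prop :=
  ∀ v, Good (z v) ∧ HRel (z v) (z (v + e1)) ∧ VRel (z v) (z (v + e2))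

theorem Valid.shift {z : V → St} (hz : Valid z) (t : V) : Valid (fun v => z (v + t)) := by
  intro v
  have h := hz (v + t)
  refine ⟨h.1, ?_, ?_⟩
  · have := h.2.1
    rwa [show v + t + e1 = v + e1 + t by abel] at this
  · have := h.2.2
    rwa [show v + t + e2 = v + e2 + t by abel] at this

/-- visible symbol of a cell -/
def sc : Bool → Bool → Fin 6
  | false, false => 2
  | false, true => 3
  | true, false => 4
  | true, true => 5

theorem sc_inj : ∀ {h b h' b' : Bool}, sc h b = sc h' b' → h = h' ∧ b = b' := by decide

theorem sc_ne_zero : ∀ (h b : Bool), sc h b ≠ 0 := by decide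
theorem sc_ne_one : ∀ (h b : Bool), sc h b ≠ 1 := by decide

/-- the visible symbol -/
def vis : St → Fin 6
  | .zero => 0
  | .wall => 1
  | .cell h b _ _ _ _ _ => sc h b

theorem vis_eq_one {s : St} (h : vis s = 1) : s = .wall := by
  cases s with
  | zero => exact absurd h (by decide)
  | wall => rfl
  | cell h' b r r2 c e t => exact absurd h (sc_ne_one _ _)

theorem vis_eq_sc {s : St} {h b : Bool} (hs : vis s = sc h b) :
    ∃ r r2 c e t, s = .cell h b r r2 c e t := by
  cases s with
  | zero => exact absurd hs.symm (sc_ne_zero _ _)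
  | wall => exact absurd hs.symm (sc_ne_one _ _)
  | cell h' b' r r2 c e t =>
    obtain ⟨h1, h2⟩ := sc_inj hs
    subst h1; subst h2
    exact ⟨r, r2, c, e, t, rfl⟩

/-- distance to the axis -/
def dst (h : ℤ) : ℤ := if h < 0 then -h else h + 1

/-- the interior of the frame of size `W` -/
def Inn (W : ℤ) (v : V) : Prop := -W ≤ v 0 ∧ v 0 < W ∧ 1 ≤ v 1 ∧ v 1 ≤ W

/-- interior or wall -/
def Big (W : ℤ) (v : V) : Prop := -W - 1 ≤ v 0 ∧ v 0 ≤ W ∧ 0 ≤ v 1 ∧ v 1 ≤ W + 1

instance (W : ℤ) (v : V) : Decidable (Inn W v) := by unfold Inn; infer_instance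
instance (W : ℤ) (v : V) : Decidable (Big W v) := by unfold Big; infer_instance

/-- the visible gadget -/
def gad (W : ℤ) (bit : ℤ → ℤ → Bool) (v : V) : Fin 6 :=
  if Inn W v then sc (decide (0 ≤ v 0)) (bit (v 0) (v 1)) else if Big W v then 1 else 0

/-- the labelled gadget -/
def lab (W : ℤ) (bit : ℤ → ℤ → Bool) (i0 j0 : ℤ) (t0 : Bool) (v : V) : St :=
  if Inn W v then
    .cell (decide (0 ≤ v 0)) (bit (v 0) (v 1)) (sgn (v 1 - i0)) (sgn (v 1 - j0))
      (sgn (dst (v 0) - j0)) (sgn (v 1 - dst (v 0))) t0
  else if Big W v then .wall else .zero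

theorem vis_lab (W : ℤ) (bit : ℤ → ℤ → Bool) (i0 j0 : ℤ) (t0 : Bool) (v : V) :
    vis (lab W bit i0 j0 t0 v) = gad W bit v := by
  unfold lab gad
  split_ifs <;> rfl

theorem lab_eq_zero {W : ℤ} {bit : ℤ → ℤ → Bool} {i0 j0 : ℤ} {t0 : Bool} {v : V}
    (h : ¬ Big W v) : lab W bit i0 j0 t0 v = .zero := by
  have h1 : ¬ Inn W v := by
    intro h2; apply h
    unfold Inn at h2; unfold Big; omega
  simp [lab, h, h1]

@[simp] theorem add_e1_0 (v : V) : (v + e1) 0 = v 0 + 1 := by simp [e1]
@[simp] theorem add_e1_1 (v : V) : (v + e1) 1 = v 1 := by simp [e1]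
@[simp] theorem add_e2_0 (v : V) : (v + e2) 0 = v 0 := by simp [e2]
@[simp] theorem add_e2_1 (v : V) : (v + e2) 1 = v 1 + 1 := by simp [e2]

theorem lab_valid {W : ℤ} {bit : ℤ → ℤ → Bool} {i0 j0 : ℤ} {t0 : Bool}
    (hi1 : 1 ≤ i0) (hi2 : i0 ≤ W) (hj1 : 1 ≤ j0) (hj2 : j0 ≤ W)
    (hb1 : bit (-j0) i0 = t0) (hb2 : bit (j0 - 1) i0 = !t0) :
    Valid (lab W bit i0 j0 t0) := by
  intro v
  refine ⟨?_, ?_, ?_⟩
  · -- one-site rule
    by_cases hv : Inn W v
    · simp only [lab, hv, if_true, Good]
      constructor
      · intro h1 h2
        have h3 := sgn_eq_zero h1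
        have h4 := sgn_eq_zero h2
        have : v 1 - dst (v 0) = 0 := by omega
        rw [this]; rfl
      · intro h1 h2
        have h3 : v 1 = i0 := by have := sgn_eq_zero h1; omega
        have h4 : dst (v 0) = j0 := by have := sgn_eq_zero h2; omega
        unfold dst at h4
        split_ifs at h4 with h5
        · have h6 : v 0 = -j0 := by omega
          rw [h6, h3, hb1]
          have : decide (0 ≤ -j0) = false := decide_eq_false (by omega)
          rw [this]; simp
        · have h6 : v 0 = j0 - 1 := by omega
          rw [h6, h3, hb2]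
          have : decide (0 ≤ j0 - 1) = true := decide_eq_true (by omega)
          rw [this]; simp
    · simp only [lab, hv, if_false]
      split_ifs <;> trivial
  · -- horizontal rule
    by_cases hv : Inn W v
    · by_cases hv' : Inn W (v + e1)
      · simp only [lab, hv, hv', if_true, HRel]
        unfold Inn at hv hv'
        simp only [add_e1_0, add_e1_1] at hv' ⊢
        refine ⟨trivial, trivial, trivial, ?_⟩
        by_cases h1 : v 0 + 1 < 0
        · left
          have h2 : ¬ (0 ≤ v 0) := by omega
          have h3 : ¬ (0 ≤ v 0 + 1) := by omega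
          have h4 : v 0 < 0 := by omega
          refine ⟨by simp [h2], by simp [h3], step_sgn' ?_, step_sgn' ?_⟩
          · simp only [dst, h4, h1, if_true]; ring
          · simp only [dst, h4, h1, if_true]; ring
        · by_cases h4 : v 0 < 0
          · right; right
            have h2 : ¬ (0 ≤ v 0) := by omega
            have h3 : (0 ≤ v 0 + 1) := by omega
            refine ⟨by simp [h2], by simp [h3], sgn_ne_pos ?_, sgn_ne_pos ?_, sgn_ne_neg ?_,
              sgn_ne_neg ?_⟩
            · simp only [dst, h4, if_true]; omega
            · simp only [dst, h1, if_false]; omega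
            · simp only [dst, h4, if_true]; omega
            · simp only [dst, h1, if_false]; omega
          · right; left
            have h2 : (0 ≤ v 0) := by omega
            have h3 : (0 ≤ v 0 + 1) := by omega
            refine ⟨by simp [h2], by simp [h3], step_sgn' ?_, step_sgn' ?_⟩
            · simp only [dst, h4, h1, if_false]; ring
            · simp only [dst, h4, h1, if_false]; ring
      · by_cases hB : Big W (v + e1)
        · simp only [lab, hv, hv', hB, if_true, if_false, HRel]
          unfold Inn at hv hv'
          simp only [add_e1_0, add_e1_1] at hv'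
          have h1 : v 0 = W - 1 := by omega
          have h2 : (0 ≤ v 0) := by omega
          refine ⟨by simp [h2], sgn_ne_neg ?_⟩
          have h3 : ¬ (v 0 < 0) := by omega
          simp only [dst, h3, if_false]; omega
        · rw [lab_eq_zero hB]; exact HRel_zero_right _
    · by_cases hB : Big W v
      · by_cases hv' : Inn W (v + e1)
        · simp only [lab, hv, hv', hB, if_true, if_false, HRel]
          unfold Inn at hv hv'
          simp only [add_e1_0, add_e1_1] at hv' ⊢
          have h1 : v 0 = -W - 1 := by omega
          have h2 : ¬ (0 ≤ v 0 + 1) := by omega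
          refine ⟨by simp [h2], sgn_ne_neg ?_⟩
          have h3 : (v 0 + 1 < 0) := by omega
          simp only [dst, h3, if_true]; omega
        · by_cases hB' : Big W (v + e1)
          · simp only [lab, hv, hv', hB, hB', if_true, if_false, HRel]
          · rw [lab_eq_zero hB']; exact HRel_zero_right _
      · rw [lab_eq_zero hB]; exact HRel_zero_left _
  · -- vertical rule
    by_cases hv : Inn W v
    · by_cases hv' : Inn W (v + e2)
      · simp only [lab, hv, hv', if_true, VRel]
        simp only [add_e2_0, add_e2_1]
        exact ⟨trivial, trivial, step_sgn' (by ring), step_sgn' (by ring), step_sgn' (by ring)⟩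
      · by_cases hB : Big W (v + e2)
        · simp only [lab, hv, hv', hB, if_true, if_false, VRel]
          unfold Inn at hv hv'
          simp only [add_e2_0, add_e2_1] at hv'
          exact ⟨sgn_ne_neg (by omega), sgn_ne_neg (by omega)⟩
        · rw [lab_eq_zero hB]; exact VRel_zero_right _
    · by_cases hB : Big W v
      · by_cases hv' : Inn W (v + e2)
        · simp only [lab, hv, hv', hB, if_true, if_false, VRel]
          unfold Inn at hv hv'
          simp only [add_e2_0, add_e2_1] at hv' ⊢
          have h1 : 1 ≤ dst (v 0) := by unfold dst; split_ifs <;> omega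
          exact ⟨sgn_ne_pos (by omega), sgn_ne_pos (by omega), sgn_ne_pos (by omega)⟩
        · by_cases hB' : Big W (v + e2)
          · simp only [lab, hv, hv', hB, hB', if_true, if_false, VRel]
          · rw [lab_eq_zero hB']; exact VRel_zero_right _
      · rw [lab_eq_zero hB]; exact VRel_zero_left _

end Pool.Agent.Hhelper32.Weiss
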