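import Mathlib

set_option autoImplicit false
set_option linter.unusedSectionVars false

/-!
# Matrices with zero diagonal and small rank
-/

namespace Pool.Agent.Hhelper32.Weiss

open Matrix Finset

variable {D : Type} [Fintype D] [DecidableEq D]

/-- zero diagonal, one elsewhere -/
def JI (D : Type) [DecidableEq D] : D → D → ℝ := fun x y => if x = y then 0 else 1

theorem det_JI (hD : 2 ≤ Fintype.card D) : (Matrix.of (JI D)).det ≠ 0 := by
  intro h
  obtain ⟨v, hv0, hv⟩ := Matrix.exists_mulVec_eq_zero_iff.mpr h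
  have h1 : ∀ x, (∑ y, v y) - v x = 0 := by
    intro x
    have h2 := congrFun hv x
    simp only [Matrix.mulVec, dotProduct, Matrix.of_apply, JI, Pi.zero_apply] at h2
    rw [← h2]
    have : ∀ y, (if x = y then (0:ℝ) else 1) * v y = v y - (if x = y then v y else 0) := by
      intro y; split_ifs <;> ring
    simp_rw [this]
    rw [Finset.sum_sub_distrib]
    simp
  set s := ∑ y, v y with hs
  have h3 : ∀ x, v x = s := fun x => by have := h1 x; linarith
  have h4 : s = Fintype.card D * s := by
    conv_lhs => rw [hs]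
    simp_rw [h3]
    simp
  have h5 : s = 0 := by
    have h6 : ((Fintype.card D : ℝ) - 1) * s = 0 := by linarith
    rcases mul_eq_zero.mp h6 with h7 | h7
    · exfalso
      have : (2:ℝ) ≤ Fintype.card D := by exact_mod_cast hD
      linarith
    · exact h7
  apply hv0
  funext x
  rw [h3 x, h5]; rfl

theorem sum_JI : ∑ x, ∑ y, JI D x y = (Fintype.card D : ℝ) * (Fintype.card D - 1) := by
  have : ∀ x : D, ∑ y, JI D x y = (Fintype.card D : ℝ) - 1 := by
    intro x
    have h : ∀ y, JI D x y = 1 - (if x = y then (1:ℝ) else 0) := by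
      intro y; unfold JI; split_ifs <;> ring
    simp_rw [h]
    rw [Finset.sum_sub_distrib]
    simp
  simp_rw [this]
  simp
  ring

/-- the quantitative gap -/
theorem exists_gap (hD : 2 ≤ Fintype.card D) : ∃ ε : ℝ, 0 < ε ∧
    ∀ M : D → D → ℝ, (∀ x, M x x = 0) → (∀ x y, x ≠ y → 1 ≤ M x y) →
      (Matrix.of M).det = 0 →
      (Fintype.card D : ℝ) * (Fintype.card D - 1) + ε ≤ ∑ x, ∑ y, M x y := by
  have hcont : Continuous (fun A : D → D → ℝ => (Matrix.of A).det) := by
    have : Continuous (fun A : D → D → ℝ => (Matrix.of A)) := by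
      exact continuous_id
    exact this.matrix_det
  have hne : (fun A : D → D → ℝ => (Matrix.of A).det) (JI D) ≠ 0 := det_JI hD
  have hev := (hcont.continuousAt (x := JI D)).eventually_ne hne
  obtain ⟨ε, hε, hball⟩ := Metric.eventually_nhds_iff.mp hev
  refine ⟨ε, hε, ?_⟩
  intro M h0 h1 hdet
  by_contra hlt
  push Not at hlt
  have hge : ∀ x y, JI D x y ≤ M x y := by
    intro x y
    unfold JI
    split_ifs with h
    · subst h; rw [h0 x]
    · exact h1 x y h
  have hsum : ∑ x, ∑ y, (M x y - JI D x y) < ε := by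
    have : ∑ x, ∑ y, (M x y - JI D x y) = (∑ x, ∑ y, M x y) - ∑ x, ∑ y, JI D x y := by
      simp_rw [Finset.sum_sub_distrib]
    rw [this, sum_JI]; linarith
  have hclose : dist M (JI D) < ε := by
    rw [dist_pi_lt_iff hε]
    intro x
    rw [dist_pi_lt_iff hε]
    intro y
    rw [Real.dist_eq, abs_of_nonneg (by have := hge x y; linarith)]
    have h2 : M x y - JI D x y ≤ ∑ y', (M x y' - JI D x y') :=
      Finset.single_le_sum (f := fun y' => M x y' - JI D x y')
        (fun y' _ => by have := hge x y'; linarith) (Finset.mem_univ y)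
    have h3 : ∑ y', (M x y' - JI D x y') ≤ ∑ x', ∑ y', (M x' y' - JI D x' y') :=
      Finset.single_le_sum (f := fun x' => ∑ y', (M x' y' - JI D x' y'))
        (fun x' _ => Finset.sum_nonneg (fun y' _ => by have := hge x' y'; linarith))
        (Finset.mem_univ x)
    linarith
  exact hball hclose hdet

/-- scaled version -/
theorem gap_scaled {ε : ℝ} (hgap : ∀ M : D → D → ℝ, (∀ x, M x x = 0) →
      (∀ x y, x ≠ y → 1 ≤ M x y) → (Matrix.of M).det = 0 →
      (Fintype.card D : ℝ) * (Fintype.card D - 1) + ε ≤ ∑ x, ∑ y, M x y)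
    {T : ℝ} (hT : 0 < T) (M : D → D → ℝ) (h0 : ∀ x, M x x = 0)
    (h1 : ∀ x y, x ≠ y → T ≤ M x y) (hdet : (Matrix.of M).det = 0) :
    T * ((Fintype.card D : ℝ) * (Fintype.card D - 1) + ε) ≤ ∑ x, ∑ y, M x y := by
  have h := hgap (fun x y => T⁻¹ * M x y) (fun x => by simp [h0 x])
    (fun x y hxy => by
      have := h1 x y hxy
      rw [← mul_inv_cancel₀ hT.ne', mul_comm]
      exact mul_le_mul_of_nonneg_left this (inv_nonneg.mpr hT.le))
    (by
      have : (Matrix.of fun x y => T⁻¹ * M x y) = T⁻¹ • (Matrix.of M) := by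
        ext x y; simp
      rw [this, Matrix.det_smul, hdet, mul_zero])
  have h2 : ∑ x, ∑ y, T⁻¹ * M x y = T⁻¹ * ∑ x, ∑ y, M x y := by
    simp_rw [Finset.mul_sum]
  rw [h2] at h
  have h3 := mul_le_mul_of_nonneg_left h hT.le
  rwa [← mul_assoc, mul_inv_cancel₀ hT.ne', one_mul] at h3

omit [DecidableEq D] in
/-- rank one from vanishing minors -/
theorem rank_one_of_minors (M : D → D → ℝ)
    (h : ∀ x y x' y', M x y * M x' y' = M x y' * M x' y) :
    ∃ a b : D → ℝ, ∀ x y, M x y = a x * b y := by
  by_cases h0 : ∀ x y, M x y = 0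
  · exact ⟨fun _ => 0, fun _ => 0, fun x y => by simp [h0 x y]⟩
  · push Not at h0
    obtain ⟨x0, y0, hc⟩ := h0
    refine ⟨fun x => M x y0, fun y => M x0 y / M x0 y0, fun x y => ?_⟩
    field_simp
    have := h x y x0 y0
    linarith

/-- a sum of few rank one matrices is singular -/
theorem det_eq_zero_of_few {B : Type} [Fintype B] [DecidableEq B]
    (hB : Fintype.card B < Fintype.card D)
    (M : D → D → ℝ) (Mb : B → D → D → ℝ) (hsum : ∀ x y, M x y = ∑ b, Mb b x y)
    (h : ∀ b x y x' y', Mb b x y * Mb b x' y' = Mb b x y' * Mb b x' y) :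
    (Matrix.of M).det = 0 := by
  choose a c hac using fun b => rank_one_of_minors (Mb b) (h b)
  let A : Matrix D B ℝ := Matrix.of fun x b => a b x
  let C : Matrix B D ℝ := Matrix.of fun b y => c b y
  have hM : Matrix.of M = A * C := by
    ext x y
    simp only [Matrix.of_apply, Matrix.mul_apply, A, C]
    rw [hsum x y]
    exact Finset.sum_congr rfl fun b _ => hac b x y
  by_contra hdet
  have hu : IsUnit (Matrix.of M) := by
    rw [Matrix.isUnit_iff_isUnit_det]
    exact isUnit_iff_ne_zero.mpr hdet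
  have hr : (Matrix.of M).rank = Fintype.card D := Matrix.rank_of_isUnit _ hu
  have hr2 : (Matrix.of M).rank ≤ Fintype.card B := by
    rw [hM]
    refine (Matrix.rank_mul_le_left A C).trans ?_
    exact Matrix.rank_le_card_width A
  omega

end Pool.Agent.Hhelper32.Weiss
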