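import Pool.Agent.Hhelper32.Weiss.Label

set_option autoImplicit false

/-!
# A labelled gadget is not mirror symmetric
-/

namespace Pool.Agent.Hhelper32.Weiss

theorem step_pos {a : SignType} (h : Step a .pos) : a ≠ .neg := by
  cases a <;> first | decide | exact h.elim

theorem step_neg' {a : SignType} (h : Step .neg a) : a ≠ .pos := by
  cases a <;> first | decide | exact h.elim

theorem step_mid {a : SignType} {d : ℤ} (h1 : Step a (sgn (d + 1))) (h2 : Step (sgn (d - 1)) a) :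
    a = sgn d := by
  rcases lt_trichotomy d 0 with hd | hd | hd
  · have e1 : sgn d = .neg := by simp [sgn, hd]
    have e2 : sgn (d - 1) = .neg := by simp [sgn, show d - 1 < 0 by omega]
    rw [e1]
    by_cases h3 : d + 1 < 0
    · have e3 : sgn (d + 1) = .neg := by simp [sgn, h3]
      rw [e3] at h1
      cases a <;> first | rfl | exact h1.elim
    · have e3 : sgn (d + 1) = .zero := by simp [sgn, show d + 1 = 0 by omega]
      rw [e3] at h1
      cases a <;> first | rfl | exact h1.elim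
  · subst hd
    have e1 : sgn 0 = .zero := by simp [sgn]
    have e2 : sgn (0 - 1) = .neg := by simp [sgn]
    have e3 : sgn (0 + 1) = .pos := by simp [sgn]
    rw [e1]
    rw [e2] at h2
    rw [e3] at h1
    cases a
    · rfl
    · exact h1.elim
    · exact h2.elim
  · have e1 : sgn d = .pos := by
      simp [sgn, show ¬ d < 0 by omega, show ¬ d = 0 by omega]
    rw [e1]
    by_cases h3 : d - 1 = 0
    · have e3 : sgn (d - 1) = .zero := by simp [sgn, h3]
      rw [e3] at h2
      cases a <;> first | rfl | exact h2.elim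
    · have e3 : sgn (d - 1) = .pos := by
        simp [sgn, show ¬ d - 1 < 0 by omega, h3]
      rw [e3] at h2
      cases a <;> first | rfl | exact h2.elim

theorem step_low {a : SignType} {d : ℤ} (hd : d < 0) (h1 : Step a (sgn (d + 1))) : a = sgn d := by
  apply step_mid h1
  have e1 : sgn (d - 1) = .neg := by simp [sgn, show d - 1 < 0 by omega]
  rw [e1]
  by_cases h3 : d + 1 < 0
  · have e3 : sgn (d + 1) = .neg := by simp [sgn, h3]
    rw [e3] at h1
    cases a
    · exact h1.elim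
    · trivial
    · exact h1.elim
  · have e3 : sgn (d + 1) = .zero := by simp [sgn, show d + 1 = 0 by omega]
    rw [e3] at h1
    cases a
    · exact h1.elim
    · trivial
    · exact h1.elim

theorem step_high {a : SignType} {d : ℤ} (hd : 0 < d) (h1 : Step (sgn (d - 1)) a) : a = sgn d := by
  refine step_mid ?_ h1
  have e1 : sgn (d + 1) = .pos := by
    simp [sgn, show ¬ d + 1 < 0 by omega, show ¬ d + 1 = 0 by omega]
  rw [e1]
  by_cases h3 : d - 1 = 0
  · have e3 : sgn (d - 1) = .zero := by simp [sgn, h3]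
    rw [e3] at h1
    cases a
    · trivial
    · exact h1.elim
    · trivial
  · have e3 : sgn (d - 1) = .pos := by
      simp [sgn, show ¬ d - 1 < 0 by omega, h3]
    rw [e3] at h1
    cases a
    · trivial
    · exact h1.elim
    · trivial

/-- the diagonal labels are forced -/
theorem diag_det {W : ℕ} (E : ℕ → ℕ → SignType)
    (hv : ∀ j i, 1 ≤ j → j ≤ W → 1 ≤ i → i + 1 ≤ W → Step (E j i) (E j (i + 1)))
    (hh : ∀ j i, 1 ≤ j → j + 1 ≤ W → 1 ≤ i → i ≤ W → Step (E (j + 1) i) (E j i))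
    (h1 : ∀ i, 1 ≤ i → i ≤ W → E 1 i ≠ .neg)
    (h2 : ∀ j, 1 ≤ j → j ≤ W → E j 1 ≠ .pos) :
    ∀ n j i : ℕ, i + j = n → 1 ≤ j → j ≤ W → 1 ≤ i → i ≤ W → E j i = sgn ((i : ℤ) - j) := by
  intro n
  induction n with
  | zero => intro j i h3 h4; omega
  | succ n ih =>
    intro j i h3 hj1 hj2 hi1 hi2
    rcases Nat.lt_or_ge 1 j with hj | hj
    · obtain ⟨j', rfl⟩ : ∃ j', j = j' + 1 := ⟨j - 1, by omega⟩
      have ih1 := ih j' i (by omega) (by omega) (by omega) hi1 hi2
      have s1 := hh j' i (by omega) hj2 hi1 hi2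
      rw [ih1] at s1
      rw [show (i : ℤ) - (j' : ℤ) = ((i : ℤ) - ((j' + 1 : ℕ) : ℤ)) + 1 by push_cast; ring] at s1
      rcases Nat.lt_or_ge 1 i with hi | hi
      · obtain ⟨i', rfl⟩ : ∃ i', i = i' + 1 := ⟨i - 1, by omega⟩
        have ih2 := ih (j' + 1) i' (by omega) hj1 hj2 (by omega) (by omega)
        have s2 := hv (j' + 1) i' hj1 hj2 (by omega) hi2
        rw [ih2] at s2
        rw [show (i' : ℤ) - ((j' + 1 : ℕ) : ℤ) = (((i' + 1 : ℕ) : ℤ) - ((j' + 1 : ℕ) : ℤ)) - 1 by
          push_cast; ring] at s2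
        exact step_mid s1 s2
      · apply step_low _ s1
        push_cast; omega
    · have hj3 : j = 1 := by omega
      subst hj3
      rcases Nat.lt_or_ge 1 i with hi | hi
      · obtain ⟨i', rfl⟩ : ∃ i', i = i' + 1 := ⟨i - 1, by omega⟩
        have ih2 := ih 1 i' (by omega) hj1 hj2 (by omega) (by omega)
        have s2 := hv 1 i' hj1 hj2 (by omega) hi2
        rw [ih2] at s2
        rw [show (i' : ℤ) - ((1 : ℕ) : ℤ) = (((i' + 1 : ℕ) : ℤ) - ((1 : ℕ) : ℤ)) - 1 by
          push_cast; ring] at s2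
        apply step_high _ s2
        push_cast; omega
      · have hi3 : i = 1 := by omega
        subst hi3
        have a1 := h1 1 le_rfl hi2
        have a2 := h2 1 le_rfl hi2
        simp only [Nat.cast_one, sub_self]
        have e0 : sgn 0 = .zero := by simp [sgn]
        rw [e0]
        cases hE : E 1 1
        · rfl
        · exact absurd hE a1
        · exact absurd hE a2

/-- discrete intermediate value -/
theorem ivt {W : ℕ} (hW : 1 ≤ W) (s : ℕ → SignType)
    (hs : ∀ i, 1 ≤ i → i + 1 ≤ W → Step (s i) (s (i + 1)))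
    (h1 : s 1 ≠ .pos) (h2 : s W ≠ .neg) : ∃ i, 1 ≤ i ∧ i ≤ W ∧ s i = .zero := by
  by_contra hne
  have key : ∀ i, 1 ≤ i → i ≤ W → s i = .neg := by
    intro i hi
    induction i, hi using Nat.le_induction with
    | base =>
      intro h3
      cases hE : s 1
      · exact absurd ⟨1, le_rfl, h3, hE⟩ hne
      · rfl
      · exact absurd hE h1
    | succ n hn ih =>
      intro h3
      have h4 := ih (by omega)
      have h5 := hs n hn h3
      rw [h4] at h5
      cases hE : s (n + 1)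
      · exact absurd ⟨n + 1, by omega, h3, hE⟩ hne
      · rfl
      · exact absurd hE (step_neg' h5)
  exact h2 (key W hW le_rfl)

/-- label fields -/
def St.fr : St → SignType
  | .cell _ _ r _ _ _ _ => r
  | _ => .zero
def St.fr2 : St → SignType
  | .cell _ _ _ r2 _ _ _ => r2
  | _ => .zero
def St.fc : St → SignType
  | .cell _ _ _ _ c _ _ => c
  | _ => .zero
def St.fe : St → SignType
  | .cell _ _ _ _ _ e _ => e
  | _ => .zero
def St.ft : St → Bool
  | .cell _ _ _ _ _ _ t => t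
  | _ => false

section
variable {W : ℕ} {bit : ℤ → ℤ → Bool} {z : V → St}

theorem cell_of_vis (hvis : ∀ v, Big W v → vis (z v) = gad W bit v) {v : V} (hv : Inn W v) :
    z v = .cell (decide (0 ≤ v 0)) (bit (v 0) (v 1)) (z v).fr (z v).fr2 (z v).fc (z v).fe
      (z v).ft := by
  have hB : Big W v := by unfold Inn at hv; unfold Big; omega
  have h := hvis v hB
  simp only [gad, hv, if_true] at h
  obtain ⟨r, r2, c, e, t, h2⟩ := vis_eq_sc h
  rw [h2]
  simp [St.fr, St.fr2, St.fc, St.fe, St.ft]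

theorem wall_of_vis (hvis : ∀ v, Big W v → vis (z v) = gad W bit v) {v : V} (hv : ¬ Inn W v)
    (hB : Big W v) : z v = .wall := by
  have h := hvis v hB
  simp only [gad, hv, hB, if_true, if_false] at h
  exact vis_eq_one h

theorem hrel_int (hz : Valid z) (hvis : ∀ v, Big W v → vis (z v) = gad W bit v) {v : V}
    (hv : Inn W v) (hv' : Inn W (v + e1)) :
    (z v).fr = (z (v + e1)).fr ∧ (z v).fr2 = (z (v + e1)).fr2 ∧ (z v).ft = (z (v + e1)).ft ∧
    (v 0 + 1 < 0 → Step (z (v + e1)).fc (z v).fc ∧ Step (z v).fe (z (v + e1)).fe) ∧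
    (0 ≤ v 0 → Step (z v).fc (z (v + e1)).fc ∧ Step (z (v + e1)).fe (z v).fe) ∧
    (v 0 = -1 → (z v).fc ≠ .pos ∧ (z (v + e1)).fc ≠ .pos ∧ (z v).fe ≠ .neg ∧
      (z (v + e1)).fe ≠ .neg) := by
  have h := (hz v).2.1
  have c1 := cell_of_vis hvis hv
  have c2 := cell_of_vis hvis hv'
  rw [c1, c2] at h
  simp only [HRel, add_e1_0] at h
  obtain ⟨h1, h2, h3, h4⟩ := h
  refine ⟨h1, h2, h3, ?_, ?_, ?_⟩
  · intro h5
    rcases h4 with h4 | h4 | h4
    · exact ⟨h4.2.2.1, h4.2.2.2⟩
    · exact absurd (of_decide_eq_true h4.2.1) (by omega)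
    · exact absurd (of_decide_eq_true h4.2.1) (by omega)
  · intro h5
    rcases h4 with h4 | h4 | h4
    · exact absurd h5 (of_decide_eq_false h4.1)
    · exact ⟨h4.2.2.1, h4.2.2.2⟩
    · exact absurd h5 (of_decide_eq_false h4.1)
  · intro h5
    rcases h4 with h4 | h4 | h4
    · exact absurd (show 0 ≤ v 0 + 1 by omega) (of_decide_eq_false h4.2.1)
    · exact absurd (of_decide_eq_true h4.1) (by omega)
    · exact h4.2.2

theorem vrel_int (hz : Valid z) (hvis : ∀ v, Big W v → vis (z v) = gad W bit v) {v : V}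
    (hv : Inn W v) (hv' : Inn W (v + e2)) :
    (z v).fc = (z (v + e2)).fc ∧ Step (z v).fr (z (v + e2)).fr ∧
      Step (z v).fr2 (z (v + e2)).fr2 ∧ Step (z v).fe (z (v + e2)).fe := by
  have h := (hz v).2.2
  have c1 := cell_of_vis hvis hv
  have c2 := cell_of_vis hvis hv'
  rw [c1, c2] at h
  simp only [VRel] at h
  exact h.2

theorem pt_add_e1 (a b : ℤ) : (![a, b] : V) + e1 = ![a + 1, b] := by
  funext i; fin_cases i <;> simp [e1]
theorem pt_add_e2 (a b : ℤ) : (![a, b] : V) + e2 = ![a, b + 1] := by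
  funext i; fin_cases i <;> simp [e2]

theorem row_const {α : Type} (f : St → α) (W : ℕ) (z : V → St) (b : ℤ)
    (h : ∀ a : ℤ, -(W : ℤ) ≤ a → a + 1 < W → f (z ![a, b]) = f (z ![a + 1, b])) :
    ∀ n : ℕ, n < 2 * W → f (z ![-(W : ℤ) + n, b]) = f (z ![-(W : ℤ), b]) := by
  intro n
  induction n with
  | zero => intro _; simp
  | succ n ih =>
    intro hn
    rw [← ih (by omega), h (-(W : ℤ) + n) (by omega) (by omega)]
    push_cast
    rw [add_assoc]

/-- the mirror symmetric gadget has no labelling -/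
theorem sound (hW : 1 ≤ W) (hz : Valid z) (hvis : ∀ v, Big W v → vis (z v) = gad W bit v) :
    ∃ j i : ℤ, 1 ≤ j ∧ j ≤ W ∧ 1 ≤ i ∧ i ≤ W ∧ bit (-j) i ≠ bit (j - 1) i := by
  -- interior points
  have inn : ∀ a b : ℤ, -(W : ℤ) ≤ a → a < W → 1 ≤ b → b ≤ W → Inn W ![a, b] := by
    intro a b h1 h2 h3 h4
    exact ⟨by simpa using h1, by simpa using h2, by simpa using h3, by simpa using h4⟩
  -- row labels
  have rowH : ∀ (a b : ℤ), -(W : ℤ) ≤ a → a + 1 < W → 1 ≤ b → b ≤ W →
      (z ![a, b]).fr = (z ![a + 1, b]).fr ∧ (z ![a, b]).fr2 = (z ![a + 1, b]).fr2 ∧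
      (z ![a, b]).ft = (z ![a + 1, b]).ft := by
    intro a b h1 h2 h3 h4
    have := hrel_int hz hvis (inn a b h1 (by omega) h3 h4)
      (by rw [pt_add_e1]; exact inn (a + 1) b (by omega) h2 h3 h4)
    rw [pt_add_e1] at this
    exact ⟨this.1, this.2.1, this.2.2.1⟩
  have rowc : ∀ (a b : ℤ), -(W : ℤ) ≤ a → a < W → 1 ≤ b → b ≤ W →
      (z ![a, b]).fr = (z ![-(W : ℤ), b]).fr ∧ (z ![a, b]).fr2 = (z ![-(W : ℤ), b]).fr2 ∧
      (z ![a, b]).ft = (z ![-(W : ℤ), b]).ft := by
    intro a b h1 h2 h3 h4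
    obtain ⟨n, hn⟩ : ∃ n : ℕ, a = -(W : ℤ) + n := ⟨(a + W).toNat, by omega⟩
    rw [hn]
    refine ⟨row_const St.fr W z b (fun a' g1 g2 => (rowH a' b g1 g2 h3 h4).1) n (by omega),
      row_const St.fr2 W z b (fun a' g1 g2 => (rowH a' b g1 g2 h3 h4).2.1) n (by omega),
      row_const St.ft W z b (fun a' g1 g2 => (rowH a' b g1 g2 h3 h4).2.2) n (by omega)⟩
  -- vertical rules
  have colV : ∀ (a b : ℤ), -(W : ℤ) ≤ a → a < W → 1 ≤ b → b + 1 ≤ W →
      (z ![a, b]).fc = (z ![a, b + 1]).fc ∧ Step (z ![a, b]).fr (z ![a, b + 1]).fr ∧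
      Step (z ![a, b]).fr2 (z ![a, b + 1]).fr2 ∧ Step (z ![a, b]).fe (z ![a, b + 1]).fe := by
    intro a b h1 h2 h3 h4
    have := vrel_int hz hvis (inn a b h1 h2 h3 (by omega))
      (by rw [pt_add_e2]; exact inn a (b + 1) h1 h2 (by omega) h4)
    rw [pt_add_e2] at this
    exact this
  have colc : ∀ (a : ℤ) (n : ℕ), -(W : ℤ) ≤ a → a < W → 1 ≤ n → n ≤ W →
      (z ![a, (n : ℤ)]).fc = (z ![a, 1]).fc := by
    intro a n h1 h2 h3
    induction n, h3 using Nat.le_induction with
    | base => intro _; simp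
    | succ n hn ih =>
      intro h4
      rw [← ih (by omega), (colV a n h1 h2 (by omega) (by omega)).1]
      push_cast; rfl
  -- bottom wall
  have bot : ∀ a : ℤ, -(W : ℤ) ≤ a → a < W → (z ![a, 1]).fr ≠ .pos ∧ (z ![a, 1]).fr2 ≠ .pos ∧
      (z ![a, 1]).fe ≠ .pos := by
    intro a h1 h2
    have h := (hz ![a, 0]).2.2
    rw [pt_add_e2, zero_add] at h
    rw [cell_of_vis hvis (inn a 1 h1 h2 le_rfl (by omega)),
      wall_of_vis hvis (v := ![a, 0]) (by intro h3; unfold Inn at h3; simp at h3)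
        (by unfold Big; simp; omega)] at h
    exact h
  have top : ∀ a : ℤ, -(W : ℤ) ≤ a → a < W → (z ![a, (W : ℤ)]).fr ≠ .neg ∧
      (z ![a, (W : ℤ)]).fr2 ≠ .neg := by
    intro a h1 h2
    have h := (hz ![a, (W : ℤ)]).2.2
    rw [pt_add_e2] at h
    rw [cell_of_vis hvis (inn a W h1 h2 (by omega) le_rfl),
      wall_of_vis hvis (v := ![a, (W : ℤ) + 1]) (by intro h3; unfold Inn at h3; simp at h3)
        (by unfold Big; simp; omega)] at h
    exact h
  have left : ∀ b : ℤ, 1 ≤ b → b ≤ W → (z ![-(W : ℤ), b]).fc ≠ .neg := by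
    intro b h1 h2
    have h := (hz ![-(W : ℤ) - 1, b]).2.1
    rw [pt_add_e1, sub_add_cancel] at h
    rw [cell_of_vis hvis (inn (-(W : ℤ)) b le_rfl (by omega) h1 h2),
      wall_of_vis hvis (v := ![-(W : ℤ) - 1, b]) (by intro h3; unfold Inn at h3; simp at h3)
        (by unfold Big; simp; omega)] at h
    exact h.2
  have right : ∀ b : ℤ, 1 ≤ b → b ≤ W → (z ![(W : ℤ) - 1, b]).fc ≠ .neg := by
    intro b h1 h2
    have h := (hz ![(W : ℤ) - 1, b]).2.1
    rw [pt_add_e1, sub_add_cancel] at h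
    rw [cell_of_vis hvis (inn ((W : ℤ) - 1) b (by omega) (by omega) h1 h2),
      wall_of_vis hvis (v := ![(W : ℤ), b]) (by intro h3; unfold Inn at h3; simp at h3)
        (by unfold Big; simp; omega)] at h
    exact h.2
  have axis : ∀ b : ℤ, 1 ≤ b → b ≤ W → (z ![-1, b]).fc ≠ .pos ∧ (z ![0, b]).fc ≠ .pos ∧
      (z ![-1, b]).fe ≠ .neg ∧ (z ![0, b]).fe ≠ .neg := by
    intro b h1 h2
    have := hrel_int hz hvis (inn (-1) b (by omega) (by omega) h1 h2)
      (by rw [pt_add_e1]; exact inn _ b (by omega) (by omega) h1 h2)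
    rw [pt_add_e1] at this
    exact this.2.2.2.2.2 (by simp)
  -- the row of the witness
  obtain ⟨i0, hi1, hi2, hi3⟩ := ivt hW (fun n => (z ![-(W : ℤ), (n : ℤ)]).fr)
    (fun i h1 h2 => by
      have := (colV (-(W : ℤ)) i le_rfl (by omega) (by omega) (by omega)).2.1
      simpa using this)
    (by simpa using (bot (-(W : ℤ)) le_rfl (by omega)).1)
    (by simpa using (top (-(W : ℤ)) le_rfl (by omega)).1)
  obtain ⟨i2, hk1, hk2, hk3⟩ := ivt hW (fun n => (z ![-(W : ℤ), (n : ℤ)]).fr2)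
    (fun i h1 h2 => by
      have := (colV (-(W : ℤ)) i le_rfl (by omega) (by omega) (by omega)).2.2.1
      simpa using this)
    (by simpa using (bot (-(W : ℤ)) le_rfl (by omega)).2.1)
    (by simpa using (top (-(W : ℤ)) le_rfl (by omega)).2)
  -- the columns
  obtain ⟨j0, hj1, hj2, hj3⟩ := ivt hW (fun n => (z ![-(n : ℤ), 1]).fc)
    (fun j h1 h2 => by
      have := hrel_int hz hvis (inn (-(j : ℤ) - 1) 1 (by omega) (by omega) le_rfl (by omega))
        (by rw [pt_add_e1]; exact inn _ 1 (by omega) (by omega) le_rfl (by omega))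
      rw [pt_add_e1] at this
      have h3 := (this.2.2.2.1 (by simp; omega)).1
      rw [sub_add_cancel] at h3
      rw [show (-((j + 1 : ℕ) : ℤ)) = -(j : ℤ) - 1 by push_cast; ring]
      exact h3)
    (by simpa using (axis 1 le_rfl (by omega)).1)
    (by simpa using left 1 le_rfl (by omega))
  obtain ⟨j1, hl1, hl2, hl3⟩ := ivt hW (fun n => (z ![(n : ℤ) - 1, 1]).fc)
    (fun j h1 h2 => by
      have := hrel_int hz hvis (inn ((j : ℤ) - 1) 1 (by omega) (by omega) le_rfl (by omega))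
        (by rw [pt_add_e1]; exact inn _ 1 (by omega) (by omega) le_rfl (by omega))
      rw [pt_add_e1] at this
      have h3 := (this.2.2.2.2.1 (by simp; omega)).1
      rw [show (((j + 1 : ℕ) : ℤ) - 1) = (j : ℤ) - 1 + 1 by push_cast; ring]
      exact h3)
    (by simpa using (axis 1 le_rfl (by omega)).2.1)
    (by simpa using right 1 le_rfl (by omega))
  -- the diagonals
  have dL : ∀ j i : ℕ, 1 ≤ j → j ≤ W → 1 ≤ i → i ≤ W →
      (z ![-(j : ℤ), (i : ℤ)]).fe = sgn ((i : ℤ) - j) := by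
    intro j i g1 g2 g3 g4
    refine diag_det (W := W) (fun j i => (z ![-(j : ℤ), (i : ℤ)]).fe) ?_ ?_ ?_ ?_ (i + j) j i rfl
      g1 g2 g3 g4
    · intro j i h1 h2 h3 h4
      have := (colV (-(j : ℤ)) i (by omega) (by omega) (by omega) (by omega)).2.2.2
      simpa using this
    · intro j i h1 h2 h3 h4
      have := hrel_int hz hvis (inn (-(j : ℤ) - 1) i (by omega) (by omega) (by omega) (by omega))
        (by rw [pt_add_e1]; exact inn _ i (by omega) (by omega) (by omega) (by omega))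
      rw [pt_add_e1] at this
      have h5 := (this.2.2.2.1 (by simp; omega)).2
      rw [sub_add_cancel] at h5
      rw [show (-((j + 1 : ℕ) : ℤ)) = -(j : ℤ) - 1 by push_cast; ring]
      exact h5
    · intro i h1 h2
      simpa using (axis i (by omega) (by omega)).2.2.1
    · intro j h1 h2
      simpa using (bot (-(j : ℤ)) (by omega) (by omega)).2.2
  have dR : ∀ j i : ℕ, 1 ≤ j → j ≤ W → 1 ≤ i → i ≤ W →
      (z ![(j : ℤ) - 1, (i : ℤ)]).fe = sgn ((i : ℤ) - j) := by
    intro j i g1 g2 g3 g4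
    refine diag_det (W := W) (fun j i => (z ![(j : ℤ) - 1, (i : ℤ)]).fe) ?_ ?_ ?_ ?_ (i + j) j i
      rfl g1 g2 g3 g4
    · intro j i h1 h2 h3 h4
      have := (colV ((j : ℤ) - 1) i (by omega) (by omega) (by omega) (by omega)).2.2.2
      simpa using this
    · intro j i h1 h2 h3 h4
      have := hrel_int hz hvis (inn ((j : ℤ) - 1) i (by omega) (by omega) (by omega) (by omega))
        (by rw [pt_add_e1]; exact inn _ i (by omega) (by omega) (by omega) (by omega))
      rw [pt_add_e1] at this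
      have h5 := (this.2.2.2.2.1 (by simp; omega)).2
      rw [show (((j + 1 : ℕ) : ℤ) - 1) = (j : ℤ) - 1 + 1 by push_cast; ring]
      exact h5
    · intro i h1 h2
      simpa using (axis i (by omega) (by omega)).2.2.2
    · intro j h1 h2
      simpa using (bot ((j : ℤ) - 1) (by omega) (by omega)).2.2
  -- match of the columns
  have e0 : j0 = i2 := by
    have g := (hz ![-(j0 : ℤ), (i2 : ℤ)]).1
    rw [cell_of_vis hvis (inn (-(j0 : ℤ)) i2 (by omega) (by omega) (by omega) (by omega))] at g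
    have g1 := g.1
    have g2 : (z ![-(j0 : ℤ), (i2 : ℤ)]).fr2 = .zero := by
      rw [(rowc (-(j0 : ℤ)) i2 (by omega) (by omega) (by omega) (by omega)).2.1]; exact hk3
    have g3 : (z ![-(j0 : ℤ), (i2 : ℤ)]).fc = .zero := by
      rw [colc (-(j0 : ℤ)) i2 (by omega) (by omega) (by omega) (by omega)]; exact hj3
    have g4 := g1 g2 g3
    rw [dL j0 i2 hj1 hj2 hk1 hk2] at g4
    have := sgn_eq_zero g4
    omega
  have e3 : j1 = i2 := by
    have g := (hz ![(j1 : ℤ) - 1, (i2 : ℤ)]).1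
    rw [cell_of_vis hvis (inn ((j1 : ℤ) - 1) i2 (by omega) (by omega) (by omega) (by omega))] at g
    have g1 := g.1
    have g2 : (z ![(j1 : ℤ) - 1, (i2 : ℤ)]).fr2 = .zero := by
      rw [(rowc ((j1 : ℤ) - 1) i2 (by omega) (by omega) (by omega) (by omega)).2.1]; exact hk3
    have g3 : (z ![(j1 : ℤ) - 1, (i2 : ℤ)]).fc = .zero := by
      rw [colc ((j1 : ℤ) - 1) i2 (by omega) (by omega) (by omega) (by omega)]; exact hl3
    have g4 := g1 g2 g3
    rw [dR j1 i2 hl1 hl2 hk1 hk2] at g4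
    have := sgn_eq_zero g4
    omega
  have e4 : j1 = j0 := by omega
  subst e4
  refine ⟨j1, i0, by omega, by omega, by omega, by omega, ?_⟩
  have gl := (hz ![-(j1 : ℤ), (i0 : ℤ)]).1
  rw [cell_of_vis hvis (inn (-(j1 : ℤ)) i0 (by omega) (by omega) (by omega) (by omega))] at gl
  have gl2 := gl.2
    (by rw [(rowc (-(j1 : ℤ)) i0 (by omega) (by omega) (by omega) (by omega)).1]; exact hi3)
    (by rw [colc (-(j1 : ℤ)) i0 (by omega) (by omega) (by omega) (by omega)]; exact hj3)
  have gr := (hz ![(j1 : ℤ) - 1, (i0 : ℤ)]).1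
  rw [cell_of_vis hvis (inn ((j1 : ℤ) - 1) i0 (by omega) (by omega) (by omega) (by omega))] at gr
  have gr2 := gr.2
    (by rw [(rowc ((j1 : ℤ) - 1) i0 (by omega) (by omega) (by omega) (by omega)).1]; exact hi3)
    (by rw [colc ((j1 : ℤ) - 1) i0 (by omega) (by omega) (by omega) (by omega)]; exact hl3)
  rw [(rowc (-(j1 : ℤ)) i0 (by omega) (by omega) (by omega) (by omega)).2.2] at gl2
  rw [(rowc ((j1 : ℤ) - 1) i0 (by omega) (by omega) (by omega) (by omega)).2.2] at gr2
  have d1 : decide (0 ≤ (![-(j1 : ℤ), (i0 : ℤ)] : V) 0) = false :=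
    decide_eq_false (by simp; omega)
  have d2 : decide (0 ≤ (![(j1 : ℤ) - 1, (i0 : ℤ)] : V) 0) = true :=
    decide_eq_true (by simp; omega)
  rw [d1] at gl2
  rw [d2] at gr2
  have gl3 : bit (-(j1 : ℤ)) i0 = xor (z ![-(W : ℤ), (i0 : ℤ)]).ft false := gl2
  have gr3 : bit ((j1 : ℤ) - 1) i0 = xor (z ![-(W : ℤ), (i0 : ℤ)]).ft true := gr2
  rw [gl3, gr3]
  cases (z ![-(W : ℤ), (i0 : ℤ)]).ft <;> decide

end

end Pool.Agent.Hhelper32.Weiss
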