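import Pool.Agent.Hhelper32.Weiss.Count
import Pool.Agent.Hhelper32.Weiss.Label

set_option autoImplicit false

/-!
# Patterns of a finite type shift above a gadget: few rank one matrices
-/

namespace Pool.Agent.Hhelper32.Weiss

open Finset Classical

variable {m : ℕ} {F G : Finset V} {R : Set (F → Fin m)} {Φ : (G → Fin m) → Fin 6}

/-- the shift of finite type -/
def sft (R : Set (F → Fin m)) : Set (V → Fin m) :=
  {z | ∀ v : V, (fun u : F => z ((u : V) + v)) ∈ R}

/-- the sliding block code -/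
def code (Φ : (G → Fin m) → Fin 6) (z : V → Fin m) : V → Fin 6 :=
  fun v => Φ (fun u : G => z ((u : V) + v))

theorem swap_mem {P P1 P2 : Finset V} (hF1 : ∀ v ∈ P1, ∀ u ∈ F, u + v ∈ P2)
    (hF2 : ∀ v, v ∉ P1 → ∀ u ∈ F, u + v ∉ P) {z z' : V → Fin m} (hz : z ∈ sft R)
    (hz' : z' ∈ sft R) (h : ∀ v ∈ P2, v ∉ P → z v = z' v) :
    (fun v => if v ∈ P then z' v else z v) ∈ sft R := by
  intro v
  by_cases hv : v ∈ P1
  · have : (fun u : F => if (u : V) + v ∈ P then z' ((u : V) + v) else z ((u : V) + v)) =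
        fun u : F => z' ((u : V) + v) := by
      funext u
      split_ifs with h1
      · rfl
      · exact h _ (hF1 v hv u u.2) h1
    rw [this]; exact hz' v
  · have : (fun u : F => if (u : V) + v ∈ P then z' ((u : V) + v) else z ((u : V) + v)) =
        fun u : F => z ((u : V) + v) := by
      funext u
      rw [if_neg (hF2 v hv u u.2)]
    rw [this]; exact hz v

theorem swap_code {P P1 P2 : Finset V} (hG1 : ∀ v ∈ P1, ∀ u ∈ G, u + v ∈ P2)
    (hG2 : ∀ v, v ∉ P1 → ∀ u ∈ G, u + v ∉ P) {z z' : V → Fin m}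
    (h : ∀ v ∈ P2, v ∉ P → z v = z' v) (v : V) :
    code Φ (fun v => if v ∈ P then z' v else z v) v =
      if v ∈ P1 then code Φ z' v else code Φ z v := by
  unfold code
  split_ifs with hv
  · congr 1
    funext u
    beta_reduce
    split_ifs with h1
    · rfl
    · exact h _ (hG1 v hv u u.2) h1
  · congr 1
    funext u
    beta_reduce
    rw [if_neg (hG2 v hv u u.2)]

/-- patterns on `Q'` occurring in the shift of finite type -/
noncomputable def BX (R : Set (F → Fin m)) (Q' : Finset V) : Finset (Q' → Fin m) :=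
  Finset.univ.filter (fun p => ∃ z ∈ sft R, ∀ v : Q', p v = z v)

theorem mem_BX {Q' : Finset V} {p : Q' → Fin m} :
    p ∈ BX R Q' ↔ ∃ z ∈ sft R, ∀ v : Q', p v = z v := by simp [BX]

/-- image of a pattern (correct on the interior of `Q'`) -/
noncomputable def imX (R : Set (F → Fin m)) (Φ : (G → Fin m) → Fin 6) (Q' : Finset V)
    (p : Q' → Fin m) : V → Fin 6 :=
  if h : ∃ z ∈ sft R, ∀ v : Q', p v = z v then code Φ h.choose else fun _ => 0

theorem imX_eq {Q Q' : Finset V} (hQ : ∀ v ∈ Q, ∀ u ∈ G, u + v ∈ Q') {p : Q' → Fin m}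
    {z : V → Fin m} (hz : z ∈ sft R) (hp : ∀ v : Q', p v = z v) {v : V} (hv : v ∈ Q) :
    imX R Φ Q' p v = code Φ z v := by
  have h : ∃ z ∈ sft R, ∀ v : Q', p v = z v := ⟨z, hz, hp⟩
  unfold imX
  rw [dif_pos h]
  unfold code
  congr 1
  funext u
  have h1 := h.choose_spec.2 ⟨(u : V) + v, hQ v hv u u.2⟩
  have h2 := hp ⟨(u : V) + v, hQ v hv u u.2⟩
  rw [← h1, h2]

/-- swap the contents on `P` -/
noncomputable def swp (P : Finset V) {Q' : Finset V} (p p' : Q' → Fin m) : Q' → Fin m :=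
  fun v => if (v : V) ∈ P then p' v else p v

theorem swp_core {P P1 P2 Q Q' : Finset V}
    (hF1 : ∀ v ∈ P1, ∀ u ∈ F, u + v ∈ P2) (hF2 : ∀ v, v ∉ P1 → ∀ u ∈ F, u + v ∉ P)
    (hG1 : ∀ v ∈ P1, ∀ u ∈ G, u + v ∈ P2) (hG2 : ∀ v, v ∉ P1 → ∀ u ∈ G, u + v ∉ P)
    (hQ : ∀ v ∈ Q, ∀ u ∈ G, u + v ∈ Q') (hP2 : P2 ⊆ Q')
    {p p' : Q' → Fin m} (hp : p ∈ BX R Q') (hp' : p' ∈ BX R Q')
    (h : ∀ v (hv : v ∈ P2), v ∉ P → p ⟨v, hP2 hv⟩ = p' ⟨v, hP2 hv⟩) :
    swp P p p' ∈ BX R Q' ∧ ∀ v ∈ Q, imX R Φ Q' (swp P p p') v =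
      if v ∈ P1 then imX R Φ Q' p' v else imX R Φ Q' p v := by
  obtain ⟨z, hz, hpz⟩ := mem_BX.mp hp
  obtain ⟨z', hz', hpz'⟩ := mem_BX.mp hp'
  have hzz : ∀ v ∈ P2, v ∉ P → z v = z' v := by
    intro v hv hvP
    have h1 := h v hv hvP
    rw [hpz ⟨v, hP2 hv⟩, hpz' ⟨v, hP2 hv⟩] at h1
    exact h1
  have hm := swap_mem hF1 hF2 hz hz' hzz
  have hs : ∀ v : Q', swp P p p' v = (fun v => if v ∈ P then z' v else z v) (v : V) := by
    intro v
    simp only [swp]
    rw [hpz v, hpz' v]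
  refine ⟨mem_BX.mpr ⟨_, hm, hs⟩, ?_⟩
  intro v hv
  rw [imX_eq hQ hm hs hv, swap_code hG1 hG2 hzz v, imX_eq hQ hz hpz hv, imX_eq hQ hz' hpz' hv]

variable {D : Type} [Fintype D] [DecidableEq D]

theorem det_zero {P P1 P2 Q Q' w U : Finset V}
    (hF1 : ∀ v ∈ P1, ∀ u ∈ F, u + v ∈ P2) (hF2 : ∀ v, v ∉ P1 → ∀ u ∈ F, u + v ∉ P)
    (hG1 : ∀ v ∈ P1, ∀ u ∈ G, u + v ∈ P2) (hG2 : ∀ v, v ∉ P1 → ∀ u ∈ G, u + v ∉ P)
    (hQ : ∀ v ∈ Q, ∀ u ∈ G, u + v ∈ Q') (hP2 : P2 ⊆ Q') (hP1 : P1 ⊆ w)
    (hw : w ⊆ Q) (hU : U ⊆ Q)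
    (g : D → D → V → Fin 6)
    (hg1 : ∀ x x' y, ∀ v ∈ P1, g x y v = g x' y v)
    (hg2 : ∀ x y y', ∀ v ∈ w, v ∉ P1 → g x y v = g x y' v)
    (hcard : m ^ (P2 \ P).card < Fintype.card D) (u : V → Fin 6) :
    (Matrix.of fun x y => (num (BX R Q') (imX R Φ Q') (U ∪ w)
      (glue w u (fun v => g x y v)) : ℝ)).det = 0 := by
  let strip : Finset V := P2 \ P
  have hstrip : ∀ v : strip, (v : V) ∈ Q' := fun v => hP2 (Finset.mem_sdiff.mp v.2).1
  let rs : (Q' → Fin m) → (strip → Fin m) := fun p v => p ⟨v, hstrip v⟩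
  let cell : (strip → Fin m) → D → D → Finset (Q' → Fin m) := fun β x y =>
    ((BX R Q').filter (fun p => ∀ v ∈ U ∪ w, imX R Φ Q' p v = glue w u (fun v => g x y v) v)).filter
      (fun p => rs p = β)
  refine det_eq_zero_of_few (B := strip → Fin m) ?_ _ (fun β x y => ((cell β x y).card : ℝ)) ?_ ?_
  · rw [Fintype.card_fun, Fintype.card_fin, Fintype.card_coe]; exact hcard
  · intro x y
    unfold num
    rw [Finset.card_eq_sum_card_fiberwise (f := rs) (t := Finset.univ)
      (fun _ _ => Finset.mem_univ _)]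
    push_cast; rfl
  · -- vanishing minors
    have key : ∀ β x y x' y', (cell β x y).card * (cell β x' y').card ≤
        (cell β x y').card * (cell β x' y).card := by
      intro β x y x' y'
      rw [← Finset.card_product, ← Finset.card_product]
      have main : ∀ x y x' y' (p p' : Q' → Fin m), p ∈ cell β x y → p' ∈ cell β x' y' →
          swp P p p' ∈ cell β x y' := by
        intro x y x' y' p p' hp hp'
        simp only [cell, Finset.mem_filter] at hp hp' ⊢
        obtain ⟨⟨hp1, hp2⟩, hp3⟩ := hp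
        obtain ⟨⟨hp1', hp2'⟩, hp3'⟩ := hp'
        have hag : ∀ v (hv : v ∈ P2), v ∉ P → p ⟨v, hP2 hv⟩ = p' ⟨v, hP2 hv⟩ := by
          intro v hv hvP
          have hvs : v ∈ strip := Finset.mem_sdiff.mpr ⟨hv, hvP⟩
          have h1 := congrFun hp3 ⟨v, hvs⟩
          have h2 := congrFun hp3' ⟨v, hvs⟩
          simp only [rs] at h1 h2
          rw [h1, h2]
        obtain ⟨hm1, hm2⟩ := swp_core (Φ := Φ) hF1 hF2 hG1 hG2 hQ hP2 hp1 hp1' hag
        refine ⟨⟨hm1, ?_⟩, ?_⟩
        · intro v hv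
          have hvQ : v ∈ Q := by
            rcases Finset.mem_union.mp hv with h | h
            · exact hU h
            · exact hw h
          rw [hm2 v hvQ]
          split_ifs with hv1
          · rw [hp2' v hv, glue_mem (hP1 hv1), glue_mem (hP1 hv1)]
            exact hg1 x' x y' v hv1
          · rw [hp2 v hv]
            by_cases hvw : v ∈ w
            · rw [glue_mem hvw, glue_mem hvw]
              exact hg2 x y y' v hvw hv1
            · rw [glue_not_mem hvw, glue_not_mem hvw]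
        · rw [← hp3]
          funext v
          simp only [rs, swp]
          rw [if_neg (Finset.mem_sdiff.mp v.2).2]
      apply Finset.card_le_card_of_injOn (fun q => (swp P q.1 q.2, swp P q.2 q.1))
      · rintro ⟨p, p'⟩ hq
        have hq' := Finset.mem_product.mp hq
        exact Finset.mem_product.mpr ⟨main x y x' y' p p' hq'.1 hq'.2,
          main x' y' x y p' p hq'.2 hq'.1⟩
      · rintro ⟨p, p'⟩ _ ⟨q, q'⟩ _ heq
        simp only [Prod.mk.injEq] at heq
        obtain ⟨h1, h2⟩ := heq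
        have a : p = q := by
          funext v
          by_cases hv : (v : V) ∈ P
          · have := congrFun h2 v
            simpa [swp, hv] using this
          · have := congrFun h1 v
            simpa [swp, hv] using this
        have b : p' = q' := by
          funext v
          by_cases hv : (v : V) ∈ P
          · have := congrFun h1 v
            simpa [swp, hv] using this
          · have := congrFun h2 v
            simpa [swp, hv] using this
        rw [a, b]
    intro β x y x' y'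
    have := le_antisymm (key β x y x' y') (key β x y' x' y)
    exact_mod_cast this

end Pool.Agent.Hhelper32.Weiss
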