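import Pool.Agent.Hhelper32.Weiss.Swap
import Pool.Agent.Hhelper32.Weiss.Sound

set_option autoImplicit false

/-!
# The sofic shift, its gadgets and the one window inequality
-/

namespace Pool.Agent.Hhelper32.Weiss

open Finset Classical

/-- the sofic shift -/
def Yset : Set (V → Fin 6) := {y | ∃ z : V → St, Valid z ∧ ∀ v, y v = vis (z v)}

/-- the base block of data -/
noncomputable def P0 (ρ K : ℕ) : Finset V := Finset.Icc ![2 * (ρ : ℤ), 1] ![2 * (ρ : ℤ) + K - 1, K]

/-- data -/
abbrev Dat (ρ K : ℕ) := P0 ρ K → Bool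

noncomputable def ext {ρ K : ℕ} (x : Dat ρ K) (h v : ℤ) : Bool :=
  if H : ![h, v] ∈ P0 ρ K then x ⟨![h, v], H⟩ else false

noncomputable def bits {ρ K : ℕ} (x y : Dat ρ K) : ℤ → ℤ → Bool := fun h v =>
  if 0 ≤ h then ext y h v else ext x (-1 - h) v

/-- the gadget with center `t` -/
noncomputable def gdt {ρ K : ℕ} (t : V) (x y : Dat ρ K) (v : V) : Fin 6 :=
  gad (2 * (ρ : ℤ) + K) (bits x y) (v - t)

/-- the window with center `t` -/
noncomputable def win (ρ K : ℕ) (t : V) : Finset V :=
  Finset.Icc ![t 0 - (4 * (ρ : ℤ) + K + 4), t 1 - (4 * (ρ : ℤ) + K + 4)]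
    ![t 0 + (4 * (ρ : ℤ) + K + 4) - 1, t 1 + (4 * (ρ : ℤ) + K + 4) - 1]

theorem mem_win {ρ K : ℕ} {t v : V} : v ∈ win ρ K t ↔
    (t 0 - (4 * (ρ : ℤ) + K + 4) ≤ v 0 ∧ t 1 - (4 * (ρ : ℤ) + K + 4) ≤ v 1) ∧
    (v 0 ≤ t 0 + (4 * (ρ : ℤ) + K + 4) - 1 ∧ v 1 ≤ t 1 + (4 * (ρ : ℤ) + K + 4) - 1) := by
  simp [win, Finset.mem_Icc, Pi.le_def, Fin.forall_fin_two]

theorem mem_P0 {ρ K : ℕ} {v : V} : v ∈ P0 ρ K ↔
    (2 * (ρ : ℤ) ≤ v 0 ∧ 1 ≤ v 1) ∧ (v 0 ≤ 2 * (ρ : ℤ) + K - 1 ∧ v 1 ≤ K) := by
  simp [P0, Finset.mem_Icc, Pi.le_def, Fin.forall_fin_two]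

theorem eta2 (v : V) : ![v 0, v 1] = v := by
  funext i; fin_cases i <;> rfl

theorem bits_left {ρ K : ℕ} (x y : Dat ρ K) (p : P0 ρ K) :
    bits x y (-((p : V) 0 + 1)) ((p : V) 1) = x p := by
  have hp := mem_P0.mp p.2
  unfold bits
  rw [if_neg (by omega)]
  have h1 : -1 - -((p : V) 0 + 1) = (p : V) 0 := by ring
  rw [h1]
  unfold ext
  have h2 : ![(p : V) 0, (p : V) 1] ∈ P0 ρ K := by rw [eta2]; exact p.2
  rw [dif_pos h2]
  congr 1
  exact Subtype.ext (eta2 _)

theorem bits_right {ρ K : ℕ} (x y : Dat ρ K) (p : P0 ρ K) :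
    bits x y (((p : V) 0 + 1) - 1) ((p : V) 1) = y p := by
  have hp := mem_P0.mp p.2
  unfold bits
  rw [if_pos (by omega)]
  have h1 : (p : V) 0 + 1 - 1 = (p : V) 0 := by ring
  rw [h1]
  unfold ext
  have h2 : ![(p : V) 0, (p : V) 1] ∈ P0 ρ K := by rw [eta2]; exact p.2
  rw [dif_pos h2]
  congr 1
  exact Subtype.ext (eta2 _)

theorem bits_symm {ρ K : ℕ} (x : Dat ρ K) (j i : ℤ) (hj : 1 ≤ j) :
    bits x x (-j) i = bits x x (j - 1) i := by
  unfold bits
  rw [if_neg (by omega), if_pos (by omega)]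
  congr 1
  ring

/-- inserting a gadget -/
theorem insert_gadget {ρ K : ℕ} (t : V) {x y : Dat ρ K} (hxy : x ≠ y) {c : V → Fin 6}
    (hc : c ∈ Yset) :
    (fun v => if v ∈ win ρ K t then gdt t x y v else c v) ∈ Yset := by
  obtain ⟨z, hz, hzc⟩ := hc
  obtain ⟨p, hp⟩ : ∃ p, x p ≠ y p := by
    by_contra h
    push Not at h
    exact hxy (funext h)
  have hpm := mem_P0.mp p.2
  set W : ℤ := 2 * (ρ : ℤ) + K with hW
  let L : V → St := lab W (bits x y) ((p : V) 1) ((p : V) 0 + 1) (x p)
  have hL : Valid L := lab_valid (by omega) (by omega) (by omega) (by omega) (bits_left x y p)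
    (by rw [bits_right x y p]
        revert hp
        generalize x p = a
        generalize y p = b
        revert a b
        decide)
  have hLz : ∀ v, ¬ Big W v → L v = .zero := fun v hv => lab_eq_zero hv
  refine ⟨fun v => if v ∈ win ρ K t then L (v - t) else z v, ?_, ?_⟩
  · intro v
    have hL' := hL (v - t)
    have hz' := hz v
    refine ⟨?_, ?_, ?_⟩
    · beta_reduce
      split_ifs
      · exact hL'.1
      · exact hz'.1
    · beta_reduce
      by_cases h1 : v ∈ win ρ K t
      · by_cases h2 : v + e1 ∈ win ρ K t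
        · rw [if_pos h1, if_pos h2, show v + e1 - t = v - t + e1 by abel]
          exact hL'.2.1
        · rw [if_pos h1, hLz (v - t)]
          · exact HRel_zero_left _
          · intro hB
            apply h2
            rw [mem_win] at h1 ⊢
            unfold Big at hB
            simp only [Pi.sub_apply] at hB
            simp only [add_e1_0, add_e1_1]
            omega
      · by_cases h2 : v + e1 ∈ win ρ K t
        · rw [if_neg h1, if_pos h2, hLz (v + e1 - t)]
          · exact HRel_zero_right _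
          · intro hB
            apply h1
            rw [mem_win] at h2 ⊢
            unfold Big at hB
            simp only [Pi.sub_apply, add_e1_0, add_e1_1] at hB h2
            omega
        · rw [if_neg h1, if_neg h2]
          exact hz'.2.1
    · beta_reduce
      by_cases h1 : v ∈ win ρ K t
      · by_cases h2 : v + e2 ∈ win ρ K t
        · rw [if_pos h1, if_pos h2, show v + e2 - t = v - t + e2 by abel]
          exact hL'.2.2
        · rw [if_pos h1, hLz (v - t)]
          · exact VRel_zero_left _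
          · intro hB
            apply h2
            rw [mem_win] at h1 ⊢
            unfold Big at hB
            simp only [Pi.sub_apply] at hB
            simp only [add_e2_0, add_e2_1]
            omega
      · by_cases h2 : v + e2 ∈ win ρ K t
        · rw [if_neg h1, if_pos h2, hLz (v + e2 - t)]
          · exact VRel_zero_right _
          · intro hB
            apply h1
            rw [mem_win] at h2 ⊢
            unfold Big at hB
            simp only [Pi.sub_apply, add_e2_0, add_e2_1] at hB h2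
            omega
        · rw [if_neg h1, if_neg h2]
          exact hz'.2.2
  · intro v
    beta_reduce
    split_ifs with h1
    · rw [vis_lab]; rfl
    · exact hzc v

/-- the symmetric gadget does not occur -/
theorem no_symmetric {ρ K : ℕ} (hK : 1 ≤ K) (t : V) (x : Dat ρ K) {c : V → Fin 6}
    (hc : c ∈ Yset) (h : ∀ v ∈ win ρ K t, c v = gdt t x x v) : False := by
  obtain ⟨z, hz, hzc⟩ := hc
  have h1 := sound (W := 2 * ρ + K) (bit := bits x x) (z := fun v => z (v + t)) (by omega)
    (hz.shift t) (by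
      intro v hv
      have h2 : v + t ∈ win ρ K t := by
        rw [mem_win]
        unfold Big at hv
        push_cast at hv
        simp only [Pi.add_apply]
        omega
      have h3 := h (v + t) h2
      rw [hzc] at h3
      rw [h3]
      unfold gdt
      push_cast
      rw [add_sub_cancel_right])
  obtain ⟨j, i, hj, _, _, _, hne⟩ := h1
  exact hne (bits_symm x j i hj)

/-- injectivity -/
theorem gdt_inj {ρ K : ℕ} (t : V) (x y x' y' : Dat ρ K)
    (h : ∀ v ∈ win ρ K t, gdt t x y v = gdt t x' y' v) : x = x' ∧ y = y' := by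
  have key : ∀ a b : ℤ, -(2 * (ρ : ℤ) + K) ≤ a → a < 2 * (ρ : ℤ) + K → 1 ≤ b →
      b ≤ 2 * (ρ : ℤ) + K → bits x y a b = bits x' y' a b := by
    intro a b h1 h2 h3 h4
    have h5 := h (![a, b] + t) (by
      rw [mem_win]
      simp only [Pi.add_apply, Matrix.cons_val_zero, Matrix.cons_val_one]
      omega)
    unfold gdt at h5
    rw [add_sub_cancel_right] at h5
    have hI : Inn (2 * (ρ : ℤ) + K) ![a, b] := by
      unfold Inn; simp; omega
    simp only [gad, hI, if_true] at h5
    exact (sc_inj h5).2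
  constructor
  · funext p
    have hp := mem_P0.mp p.2
    rw [← bits_left x y p, ← bits_left x' y' p]
    apply key <;> omega
  · funext p
    have hp := mem_P0.mp p.2
    rw [← bits_right x y p, ← bits_right x' y' p]
    apply key <;> omega

/-- patterns of the sofic shift -/
noncomputable def BY (Q : Finset V) : Finset (Q → Fin 6) :=
  Finset.univ.filter (fun q => ∃ y ∈ Yset, ∀ v : Q, q v = y v)

theorem mem_BY {Q : Finset V} {q : Q → Fin 6} :
    q ∈ BY Q ↔ ∃ y ∈ Yset, ∀ v : Q, q v = y v := by simp [BY]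

noncomputable def imY (Q : Finset V) (q : Q → Fin 6) : V → Fin 6 :=
  fun v => if h : v ∈ Q then q ⟨v, h⟩ else 0

theorem imY_eq {Q : Finset V} {q : Q → Fin 6} {v : V} (h : v ∈ Q) : imY Q q v = q ⟨v, h⟩ := by
  simp [imY, h]

/-- the comparison of the numbers of extensions -/
theorem comp_gadget {ρ K : ℕ} (t : V) {x y : Dat ρ K} (hxy : x ≠ y) {Q U : Finset V}
    (hw : win ρ K t ⊆ Q) (hU : U ⊆ Q) (u : V → Fin 6)
    (q : win ρ K t → Fin 6) :
    num (BY Q) (imY Q) (U ∪ win ρ K t) (glue (win ρ K t) u q) ≤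
      num (BY Q) (imY Q) (U ∪ win ρ K t) (glue (win ρ K t) u (fun v => gdt t x y v)) := by
  unfold num
  apply Finset.card_le_card_of_injOn
    (fun p => fun v : Q => if (v : V) ∈ win ρ K t then gdt t x y v else p v)
  · intro p hp
    rw [Finset.mem_coe, Finset.mem_filter] at hp ⊢
    obtain ⟨hp1, hp2⟩ := hp
    obtain ⟨c, hc, hpc⟩ := mem_BY.mp hp1
    constructor
    · rw [mem_BY]
      refine ⟨_, insert_gadget t hxy hc, ?_⟩
      intro v
      beta_reduce
      rw [hpc v]
    · intro v hv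
      have hvQ : v ∈ Q := by
        rcases Finset.mem_union.mp hv with h | h
        · exact hU h
        · exact hw h
      rw [imY_eq hvQ]
      beta_reduce
      by_cases hvw : v ∈ win ρ K t
      · rw [if_pos hvw, glue_mem hvw]
      · rw [if_neg hvw, glue_not_mem hvw]
        have := hp2 v hv
        rw [imY_eq hvQ, glue_not_mem hvw] at this
        exact this
  · intro p hp p' hp' heq
    rw [Finset.mem_coe, Finset.mem_filter] at hp hp'
    funext v
    by_cases hvw : (v : V) ∈ win ρ K t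
    · have h1 := hp.2 v (Finset.mem_union_right _ hvw)
      have h2 := hp'.2 v (Finset.mem_union_right _ hvw)
      rw [imY_eq v.2] at h1 h2
      rw [show p v = p ⟨(v : V), v.2⟩ from rfl, show p' v = p' ⟨(v : V), v.2⟩ from rfl, h1, h2]
    · have := congrFun heq v
      simpa [hvw] using this

/-- data blocks and their neighbourhoods -/
noncomputable def Pt (ρ K : ℕ) (t : V) (r : ℤ) : Finset V :=
  Finset.Icc ![2 * (ρ : ℤ) + t 0 - r, 1 + t 1 - r] ![2 * (ρ : ℤ) + K - 1 + t 0 + r, K + t 1 + r]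

theorem mem_Pt {ρ K : ℕ} {t : V} {r : ℤ} {v : V} : v ∈ Pt ρ K t r ↔
    (2 * (ρ : ℤ) + t 0 - r ≤ v 0 ∧ 1 + t 1 - r ≤ v 1) ∧
    (v 0 ≤ 2 * (ρ : ℤ) + K - 1 + t 0 + r ∧ v 1 ≤ K + t 1 + r) := by
  simp [Pt, Finset.mem_Icc, Pi.le_def, Fin.forall_fin_two]

theorem gdt_indep_left {ρ K : ℕ} (t : V) (x x' y : Dat ρ K) :
    ∀ v ∈ Pt ρ K t ρ, gdt t x y v = gdt t x' y v := by
  intro v hv
  rw [mem_Pt] at hv
  have h : bits x y ((v - t) 0) ((v - t) 1) = bits x' y ((v - t) 0) ((v - t) 1) := by
    unfold bits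
    have h0 : 0 ≤ (v - t) 0 := by simp only [Pi.sub_apply]; omega
    rw [if_pos h0, if_pos h0]
  unfold gdt gad
  rw [h]

theorem gdt_indep_right {ρ K : ℕ} (t : V) (x y y' : Dat ρ K) :
    ∀ v ∈ win ρ K t, v ∉ Pt ρ K t ρ → gdt t x y v = gdt t x y' v := by
  intro v _ hv
  have h : bits x y ((v - t) 0) ((v - t) 1) = bits x y' ((v - t) 0) ((v - t) 1) := by
    unfold bits
    by_cases h0 : 0 ≤ (v - t) 0
    · rw [if_pos h0, if_pos h0]
      have hn : ![(v - t) 0, (v - t) 1] ∉ P0 ρ K := by
        intro h1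
        apply hv
        rw [mem_P0] at h1
        rw [mem_Pt]
        simp only [Matrix.cons_val_zero, Matrix.cons_val_one, Pi.sub_apply] at h1
        omega
      unfold ext
      rw [dif_neg hn, dif_neg hn]
    · rw [if_neg h0, if_neg h0]
  unfold gdt gad
  rw [h]

end Pool.Agent.Hhelper32.Weiss
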